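import Pool.Agent.Helper24.TU.Defs
import Pool.Agent.Helper91.CPX.Greedy

/-!
TV-06 (MP_464c42_nt). From a large `radM` to a squarefree divisor of controlled size; monotonicity of `radM`.
-/

set_option autoImplicit false

open Pool.Agent.Helper87.Camp Pool.Agent.Helper10 Pool.Agent.Helper91.CPX

namespace Pool.Agent.Helper24.TV

open Pool.Agent.Helper24.TU

theorem sqf_prod (Q : Finset ℕ) (hQ : ∀ p ∈ Q, p.Prime) : Squarefree (∏ p ∈ Q, p) := by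
  refine Finset.squarefree_prod_of_pairwise_isCoprime (fun p hp q hq hpq => ?_)
    (fun p hp => (hQ p hp).prime.squarefree)
  exact Nat.coprime_iff_isRelPrime.mp ((Nat.coprime_primes (hQ p hp) (hQ q hq)).2 hpq)

theorem pf_prod (Q : Finset ℕ) (hQ : ∀ p ∈ Q, p.Prime) : (∏ p ∈ Q, p).primeFactors = Q :=
  Nat.primeFactors_prod hQ

theorem bad_d (S : Finset ℕ) (M W D : ℕ) (a : ℤ) (hW : 1 ≤ W) (hD : 1 ≤ D)
    (h : D < radM S M W a) :
    ∃ d : ℕ, Squarefree d ∧ D ≤ d ∧ d ≤ D * W ∧ (d : ℤ) ^ M ∣ a ∧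
      ∀ p ∈ d.primeFactors, p.Prime ∧ p ∉ S ∧ p ≤ W ∧ (p : ℤ) ∣ a := by
  classical
  obtain ⟨Q, hQ⟩ : ∃ Q : Finset ℕ, Q = a.natAbs.primeFactors.filter
    (fun p => p ∉ S ∧ p ≤ W ∧ p ^ M ∣ a.natAbs) := ⟨_, rfl⟩
  have hQm : ∀ p ∈ Q, p.Prime ∧ p ∣ a.natAbs ∧ p ∉ S ∧ p ≤ W ∧ p ^ M ∣ a.natAbs := by
    intro p hp
    rw [hQ, Finset.mem_filter, Nat.mem_primeFactors] at hp
    exact ⟨hp.1.1, hp.1.2.1, hp.2.1, hp.2.2.1, hp.2.2.2⟩
  have hradQ : radM S M W a = ∏ p ∈ Q, p := by rw [hQ]; rfl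
  rcases greedy Q W D (fun p hp => ⟨(hQm p hp).1.one_lt.le, (hQm p hp).2.2.2.1⟩) hD hW with
    hlt | ⟨Q', hQ'Q, hQl, hQu⟩
  · exact absurd hlt (by rw [← hradQ]; omega)
  have hpr : ∀ p ∈ Q', p.Prime := fun p hp => (hQm p (hQ'Q hp)).1
  refine ⟨∏ p ∈ Q', p, sqf_prod Q' hpr, hQl, hQu, ?_, ?_⟩
  · have h1 : (∏ p ∈ Q', p) ^ M ∣ a.natAbs := by
      rw [← Finset.prod_pow]
      apply Finset.prod_dvd_of_isRelPrime
      · intro p hp q hq hpq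
        exact Nat.coprime_iff_isRelPrime.mp
          (Nat.Coprime.pow M M ((Nat.coprime_primes (hpr p hp) (hpr q hq)).mpr hpq))
      · intro p hp
        exact (hQm p (hQ'Q hp)).2.2.2.2
    have h2 : (((∏ p ∈ Q', p) ^ M : ℕ) : ℤ) ∣ a := Int.natCast_dvd.mpr h1
    rw [Nat.cast_pow] at h2
    exact h2
  · intro p hp
    rw [pf_prod Q' hpr] at hp
    obtain ⟨h1, h2, h3, h4, -⟩ := hQm p (hQ'Q hp)
    exact ⟨h1, h3, h4, Int.natCast_dvd.mpr h2⟩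

theorem radM_mono (S : Finset ℕ) {M M' W W' : ℕ} (hM : M ≤ M') (hW : W' ≤ W) (a : ℤ) :
    radM S M' W' a ≤ radM S M W a := by
  classical
  unfold radM
  refine Finset.prod_le_prod_of_subset_of_one_le' (fun p hp => ?_) fun p hp _ => ?_
  · rw [Finset.mem_filter] at hp ⊢
    exact ⟨hp.1, hp.2.1, hp.2.2.1.trans hW, (pow_dvd_pow p hM).trans hp.2.2.2⟩
  · exact (Nat.prime_of_mem_primeFactors (Finset.mem_filter.1 hp).1).one_lt.le

end Pool.Agent.Helper24.TV
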