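import Pool.Agent.Helper24.TV.ClassR
import Pool.Agent.Helper24.TU.Cnt

/-!
TV-05 (MP_464c42_nt). Three terms: the regimes with `a 0` fixed. Either `a 2` has small `radM` and `a 1` is divisible by `d ^ M2`
(pointwise lemma), or `a 1` and `a 2` have small `radM` (sums of two numbers).
-/

set_option autoImplicit false

open Pool.Agent.Helper87.Camp Pool.Agent.Helper10 Pool.Agent.Helper91.CPX

namespace Pool.Agent.Helper24.TV

open Pool.Agent.Helper24.TU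

theorem regimePL (M H : ℕ) (hM : 1 ≤ M) (κ ε2 : ℝ) (hκ : 0 < κ) (hε2 : 0 < ε2) :
    ∃ M2 : ℕ, 1 ≤ M2 ∧ ∀ m : ℕ, M ≤ H * m → ∀ S : Finset ℕ, ∀ δ : ℝ, 0 < δ → ∃ C : ℝ, 1 ≤ C ∧
      ∀ N X W D Y0 : ℕ, 1 ≤ N → 2 ≤ X → W ≤ X → 1 ≤ D → X ≤ W ^ H → N ≤ W ^ (H * m) → 1 ≤ Y0 →
      ∀ V : ℕ, V ≤ X → ∀ T : Finset (Fin 3 → ℤ),
      (∀ a ∈ T, a 0 ∈ Rset S Y0 N ∧ a 2 ∈ Rset S X N ∧ radM S M W (a 2) ≤ D ∧
        a 0 + a 1 + a 2 = 0 ∧ ∃ d : ℕ, Squarefree d ∧ d ≤ V ∧ (X : ℝ) ^ κ ≤ (d : ℝ) ∧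
          (∀ p ∈ d.primeFactors, p ^ M2 ≤ X) ∧ (d : ℤ) ^ M2 ∣ a 1 ∧
          (∀ p ∈ d.primeFactors, ¬ (p : ℤ) ∣ a 2)) →
      (T.card : ℝ) ≤ C * (V : ℝ) * (D : ℝ) ^ 2 * ((Y0 : ℝ) * ((X : ℝ) ^ ε2 * (N : ℝ) ^ δ)) := by
  classical
  obtain ⟨M2, hM2, hcl⟩ := classR M H hM κ ε2 hκ hε2
  refine ⟨M2, hM2, fun m hm S δ hδ => ?_⟩
  obtain ⟨C2, hC2, hcl⟩ := hcl m hm S (δ / 2) (by positivity)
  obtain ⟨C1, hC1, hA⟩ := rset_count S (δ / 2) (by positivity)
  refine ⟨C1 * C2, one_le_mul_of_one_le_of_one_le hC1 hC2, ?_⟩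
  intro N X W D Y0 hN hX hWX hD hXW hW hY0 V hV T hT
  have hN1 : (1 : ℝ) ≤ N := by exact_mod_cast hN
  have hN0 : (0 : ℝ) < N := by linarith
  choose! gd hsq hdV hXd hp hdvd hnd using fun a ha => (hT a ha).2.2.2.2
  obtain ⟨K, hK⟩ : ∃ K : ℝ, K = C2 * (D : ℝ) ^ 2 * ((X : ℝ) ^ ε2 * (N : ℝ) ^ (δ / 2)) := ⟨_, rfl⟩
  have hK0 : 0 ≤ K := by rw [hK]; positivity
  have hstep : (T.card : ℝ) ≤ K * (Finset.Icc 1 V ×ˢ Rset S Y0 N).card := by
    apply card_le_real (fun a => (gd a, a 0))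
    · intro a ha
      rw [Finset.mem_product, Finset.mem_Icc]
      exact ⟨⟨Nat.one_le_iff_ne_zero.2 (hsq a ha).ne_zero, hdV a ha⟩, (hT a ha).1⟩
    · rintro ⟨d, u⟩ _
      rcases (T.filter (fun a => (gd a, a 0) = (d, u))).eq_empty_or_nonempty with h0 | ⟨a1, ha1⟩
      · rw [h0, Finset.card_empty, Nat.cast_zero]
        exact hK0
      · have hkey : ∀ a ∈ T.filter (fun a => (gd a, a 0) = (d, u)), a ∈ T ∧ gd a = d ∧ a 0 = u := by
          intro a ha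
          rw [Finset.mem_filter, Prod.mk.injEq] at ha
          exact ha
        obtain ⟨hT1, e1, e2⟩ := hkey a1 ha1
        have hsq' : Squarefree d := by rw [← e1]; exact hsq a1 hT1
        have hdX : d ≤ X := by rw [← e1]; exact (hdV a1 hT1).trans hV
        have hXd' : (X : ℝ) ^ κ ≤ (d : ℝ) := by rw [← e1]; exact hXd a1 hT1
        have hp' : ∀ p ∈ d.primeFactors, p ^ M2 ≤ X := by rw [← e1]; exact hp a1 hT1
        have h1 := hcl N X W D hN hX hWX hD hXW hW d hsq' hdX hXd' hp' (-u)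
          ((T.filter (fun a => (gd a, a 0) = (d, u))).image (fun a => a 2)) (by
            intro w hw
            obtain ⟨a, ha, rfl⟩ := Finset.mem_image.1 hw
            obtain ⟨haT, f1, f2⟩ := hkey a ha
            obtain ⟨g1, g2, g3, g4, -⟩ := hT a haT
            refine ⟨g2, g3, ?_, ?_⟩
            · rw [← f1]; exact hnd a haT
            · have h2 := hdvd a haT
              rw [f1] at h2
              have e3 : a 2 - -u = - a 1 := by rw [← f2]; linarith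
              rw [e3]
              exact (dvd_neg).2 h2)
        have h2 : ((T.filter (fun a => (gd a, a 0) = (d, u))).image (fun a => a 2)).card =
            (T.filter (fun a => (gd a, a 0) = (d, u))).card := by
          apply Finset.card_image_of_injOn
          intro a ha b hb hab
          obtain ⟨haT, f1, f2⟩ := hkey a (Finset.mem_coe.1 ha)
          obtain ⟨hbT, f3, f4⟩ := hkey b (Finset.mem_coe.1 hb)
          have i3 : a 2 = b 2 := hab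
          have hsa := (hT a haT).2.2.2.1
          have hsb := (hT b hbT).2.2.2.1
          have i1 : a 0 = b 0 := by rw [f2, f4]
          have i2 : a 1 = b 1 := by
            rw [i1, i3] at hsa
            linarith
          funext h
          fin_cases h
          · exact i1
          · exact i2
          · exact i3
        rw [h2] at h1
        rw [hK]
        exact h1
  have hRc := hA Y0 N hY0 hN
  have hcard : ((Finset.Icc 1 V ×ˢ Rset S Y0 N).card : ℝ) ≤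
      (V : ℝ) * (C1 * ((Y0 : ℝ) * (N : ℝ) ^ (δ / 2))) := by
    rw [Finset.card_product, Nat.card_Icc, Nat.add_sub_cancel]
    push_cast
    exact mul_le_mul_of_nonneg_left hRc (Nat.cast_nonneg _)
  have hNδ : (N : ℝ) ^ (δ / 2) * (N : ℝ) ^ (δ / 2) = (N : ℝ) ^ δ := by
    rw [← Real.rpow_add hN0]
    congr 1
    ring
  calc (T.card : ℝ) ≤ K * ((V : ℝ) * (C1 * ((Y0 : ℝ) * (N : ℝ) ^ (δ / 2)))) :=
        hstep.trans (mul_le_mul_of_nonneg_left hcard hK0)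
    _ = C1 * C2 * (V : ℝ) * (D : ℝ) ^ 2 * ((Y0 : ℝ) * ((X : ℝ) ^ ε2 *
          ((N : ℝ) ^ (δ / 2) * (N : ℝ) ^ (δ / 2)))) := by rw [hK]; ring
    _ = _ := by rw [hNδ]

theorem regime2V (M H : ℕ) (hM : 1 ≤ M) (hH : 1 ≤ H) (ε2 : ℝ) (hε2 : 0 < ε2) :
    ∃ m0 : ℕ, 1 ≤ m0 ∧ ∀ m : ℕ, m0 ≤ m → ∀ S : Finset ℕ, ∀ δ : ℝ, 0 < δ → ∃ C : ℝ, 1 ≤ C ∧
      ∀ N X W D Y0 : ℕ, 1 ≤ N → 2 ≤ X → W ≤ X → 1 ≤ D → X ≤ W ^ H → N ≤ W ^ (H * m) → 1 ≤ Y0 →
      ∀ T : Finset (Fin 3 → ℤ),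
      (∀ a ∈ T, a 0 ∈ Rset S Y0 N ∧ a 1 ∈ Rset S X N ∧ a 2 ∈ Rset S X N ∧
        radM S M W (a 1) ≤ D ∧ radM S M W (a 2) ≤ D ∧ a 0 + a 1 + a 2 = 0 ∧
        NoSmallRatio (a 1) (- a 0) ((X : ℤ) ^ m0)) →
      (T.card : ℝ) ≤ C * (D : ℝ) ^ 4 * ((Y0 : ℝ) * ((X : ℝ) ^ ε2 * (N : ℝ) ^ δ)) := by
  classical
  obtain ⟨m0, hm0, hrk⟩ := rkR M H hM hH ε2 hε2
  refine ⟨m0, hm0, fun m hm S δ hδ => ?_⟩
  obtain ⟨C2, hC2, hrk⟩ := hrk m hm S (δ / 2) (by positivity)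
  obtain ⟨C1, hC1, hA⟩ := rset_count S (δ / 2) (by positivity)
  refine ⟨C1 * C2, one_le_mul_of_one_le_of_one_le hC1 hC2, ?_⟩
  intro N X W D Y0 hN hX hWX hD hXW hW hY0 T hT
  have hN1 : (1 : ℝ) ≤ N := by exact_mod_cast hN
  have hN0 : (0 : ℝ) < N := by linarith
  obtain ⟨K, hK⟩ : ∃ K : ℝ, K = C2 * (D : ℝ) ^ 4 * ((X : ℝ) ^ ε2 * (N : ℝ) ^ (δ / 2)) := ⟨_, rfl⟩
  have hK0 : 0 ≤ K := by rw [hK]; positivity
  have hstep : (T.card : ℝ) ≤ K * (Rset S Y0 N).card := by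
    apply card_le_real (fun a => a 0)
    · intro a ha
      exact (hT a ha).1
    · intro u _
      have hkey : ∀ a ∈ T.filter (fun a => a 0 = u), a ∈ T ∧ a 0 = u := fun a ha =>
        Finset.mem_filter.1 ha
      have h1 := hrk N X W D hN hX hWX hD hXW hW (-u)
        ((T.filter (fun a => a 0 = u)).image (fun a => a 1)) (by
          intro w hw
          obtain ⟨a, ha, rfl⟩ := Finset.mem_image.1 hw
          obtain ⟨haT, f1⟩ := hkey a ha
          obtain ⟨g1, g2, g3, g4, g5, g6, g7⟩ := hT a haT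
          have e3 : -u - a 1 = a 2 := by rw [← f1]; linarith
          rw [e3, ← f1]
          exact ⟨g2, g3, g4, g5, g7⟩)
      have h2 : ((T.filter (fun a => a 0 = u)).image (fun a => a 1)).card =
          (T.filter (fun a => a 0 = u)).card := by
        apply Finset.card_image_of_injOn
        intro a ha b hb hab
        obtain ⟨haT, f1⟩ := hkey a (Finset.mem_coe.1 ha)
        obtain ⟨hbT, f2⟩ := hkey b (Finset.mem_coe.1 hb)
        have i2 : a 1 = b 1 := hab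
        have hsa := (hT a haT).2.2.2.2.2.1
        have hsb := (hT b hbT).2.2.2.2.2.1
        have i1 : a 0 = b 0 := by rw [f1, f2]
        have i3 : a 2 = b 2 := by
          rw [i1, i2] at hsa
          linarith
        funext h
        fin_cases h
        · exact i1
        · exact i2
        · exact i3
      rw [h2] at h1
      rw [hK]
      exact h1
  have hRc := hA Y0 N hY0 hN
  have hNδ : (N : ℝ) ^ (δ / 2) * (N : ℝ) ^ (δ / 2) = (N : ℝ) ^ δ := by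
    rw [← Real.rpow_add hN0]
    congr 1
    ring
  calc (T.card : ℝ) ≤ K * (C1 * ((Y0 : ℝ) * (N : ℝ) ^ (δ / 2))) :=
        hstep.trans (mul_le_mul_of_nonneg_left hRc hK0)
    _ = C1 * C2 * (D : ℝ) ^ 4 * ((Y0 : ℝ) * ((X : ℝ) ^ ε2 *
          ((N : ℝ) ^ (δ / 2) * (N : ℝ) ^ (δ / 2)))) := by rw [hK]; ring
    _ = _ := by rw [hNδ]

/-- In a solution with small gcd and a large entry no two entries have a small ratio. -/
theorem noSmall3 (a0 a1 a2 G L N : ℤ) (h0 : a0 ≠ 0) (h1 : a1 ≠ 0) (hs : a0 + a1 + a2 = 0)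
    (hG0 : 0 ≤ G) (hL0 : 0 ≤ L) (hG : ∀ g : ℤ, g ∣ a0 → g ∣ a1 → g ∣ a2 → |g| ≤ G)
    (hN : N ≤ G * |a0| ∨ N ≤ G * |a1| ∨ N ≤ G * |a2|) (hL : 2 * G * (G * L) < N) :
    NoSmallRatio a1 (- a0) L := by
  intro p q hp hq hpq
  by_contra hcon
  have hp0 : p ≠ 0 := by
    rintro rfl
    rw [mul_zero, mul_eq_zero] at hpq
    exact hcon ⟨rfl, hpq.resolve_left h1⟩
  have hq0 : q ≠ 0 := by
    rintro rfl
    rw [mul_zero, eq_comm, mul_eq_zero, neg_eq_zero] at hpq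
    exact hcon ⟨hpq.resolve_left h0, rfl⟩
  obtain ⟨g, hg⟩ : ∃ g : ℤ, g = Int.gcd a0 a1 := ⟨_, rfl⟩
  have hga0 : g ∣ a0 := by rw [hg]; exact Int.gcd_dvd_left ..
  have hga1 : g ∣ a1 := by rw [hg]; exact Int.gcd_dvd_right ..
  have hga2 : g ∣ a2 := by
    have : a2 = -(a0 + a1) := by linarith
    rw [this]
    exact (dvd_neg).2 (dvd_add hga0 hga1)
  have hgG := hG g hga0 hga1 hga2
  have hg0 : g ≠ 0 := by
    rintro rfl
    exact h0 (zero_dvd_iff.1 hga0)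
  obtain ⟨b0, hb0⟩ := hga0
  obtain ⟨b1, hb1⟩ := hga1
  have hcop : IsCoprime b0 b1 := by
    rw [Int.isCoprime_iff_gcd_eq_one]
    have h3 : Int.gcd a0 a1 = g.natAbs * Int.gcd b0 b1 := by
      rw [hb0, hb1, Int.gcd_mul_left]
    have h4 : g.natAbs = Int.gcd a0 a1 := by rw [hg, Int.natAbs_natCast]
    have h5 : 0 < g.natAbs := Int.natAbs_pos.2 hg0
    rw [← h4] at h3
    have h6 : g.natAbs * 1 = g.natAbs * Int.gcd b0 b1 := by rw [mul_one]; exact h3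
    exact (Nat.eq_of_mul_eq_mul_left h5 h6).symm
  have hbb : b1 * q = - (b0 * p) := by
    have : g * (b1 * q) = g * (-(b0 * p)) := by
      rw [hb0, hb1] at hpq
      linear_combination hpq
    exact mul_left_cancel₀ hg0 this
  have hd1 : b1 ∣ p := by
    have h3 : b1 ∣ b0 * p := by
      rw [← dvd_neg, ← hbb]
      exact dvd_mul_right _ _
    exact hcop.symm.dvd_of_dvd_mul_left h3
  have hd0 : b0 ∣ q := by
    have h3 : b0 ∣ b1 * q := by
      rw [hbb]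
      exact (dvd_neg).2 (dvd_mul_right _ _)
    exact hcop.dvd_of_dvd_mul_left h3
  have hle : ∀ x y : ℤ, x ∣ y → y ≠ 0 → |y| ≤ L → |x| ≤ L := by
    intro x y hxy hy hyL
    have h3 : |x| ≤ |y| := Int.le_of_dvd (abs_pos.2 hy) ((abs_dvd_abs _ _).2 hxy)
    exact h3.trans hyL
  have hb1L := hle b1 p hd1 hp0 hp
  have hb0L := hle b0 q hd0 hq0 hq
  have ha0L : |a0| ≤ G * L := by
    rw [hb0, abs_mul]
    exact mul_le_mul hgG hb0L (abs_nonneg _) hG0
  have ha1L : |a1| ≤ G * L := by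
    rw [hb1, abs_mul]
    exact mul_le_mul hgG hb1L (abs_nonneg _) hG0
  have ha2L : |a2| ≤ 2 * (G * L) := by
    have : a2 = -(a0 + a1) := by linarith
    rw [this, abs_neg]
    refine (abs_add_le _ _).trans (by linarith)
  have hGL : 0 ≤ G * L := mul_nonneg hG0 hL0
  rcases hN with h | h | h
  · have := mul_le_mul_of_nonneg_left ha0L hG0
    nlinarith
  · have := mul_le_mul_of_nonneg_left ha1L hG0
    nlinarith
  · have := mul_le_mul_of_nonneg_left ha2L hG0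
    nlinarith

end Pool.Agent.Helper24.TV
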