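import Pool.Agent.Helper24.TV.Reg1V
import Pool.Agent.Helper24.TV.Reg2V
import Pool.Agent.Helper24.TV.BadD

/-!
TV-07 (MP_464c42_nt). Three terms with sum zero and small radicals: the square root of the product of the first two radicals.
-/

set_option autoImplicit false

open Pool.Agent.Helper87.Camp Pool.Agent.Helper10 Pool.Agent.Helper91.CPX

namespace Pool.Agent.Helper24.TV

open Pool.Agent.Helper24.TU

private lemma ap2_large (c : ℝ) (hc : 0 < c) (K : ℝ) :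
    ∃ N1 : ℕ, 1 ≤ N1 ∧ ∀ N : ℕ, N1 ≤ N → K ≤ (N : ℝ) ^ c := by
  have h := (tendsto_rpow_atTop hc).comp tendsto_natCast_atTop_atTop
  obtain ⟨N1, hN1⟩ := Filter.eventually_atTop.1 (h.eventually_ge_atTop K)
  exact ⟨max N1 1, le_max_right _ _, fun N hN => hN1 N (le_trans (le_max_left _ _) hN)⟩

private lemma ap2_triv (N N1 : ℕ) (hN : N ≤ N1) (T : Finset (Fin 3 → ℤ))
    (hT : ∀ a ∈ T, ∀ i, (a i).natAbs ≤ N) : (T.card : ℝ) ≤ (2 * (N1 : ℝ) + 1) ^ 3 := by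
  classical
  have hsub : T ⊆ Fintype.piFinset fun _ : Fin 3 => Finset.Icc (-(N1 : ℤ)) N1 := by
    intro a ha
    rw [Fintype.mem_piFinset]
    intro i
    have := hT a ha i
    rw [Finset.mem_Icc]
    omega
  have h1 := Finset.card_le_card hsub
  rw [Fintype.card_piFinset, Finset.prod_const, Finset.card_univ, Fintype.card_fin,
    Int.card_Icc] at h1
  have h2 : ((N1 : ℤ) + 1 - -(N1 : ℤ)).toNat = 2 * N1 + 1 := by omega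
  rw [h2] at h1
  exact_mod_cast h1

private lemma cop_of (x : ℤ) (d : ℕ) (hd : d ≠ 0) (h : ∀ p ∈ d.primeFactors, ¬ (p : ℤ) ∣ x) :
    IsCoprime x (d : ℤ) := by
  rw [Int.isCoprime_iff_gcd_eq_one]
  by_contra hne
  obtain ⟨p, hp, hpd⟩ := Nat.exists_prime_and_dvd hne
  have h1 : (p : ℤ) ∣ x := (Int.natCast_dvd_natCast.2 hpd).trans (Int.gcd_dvd_left ..)
  have h2 : (p : ℤ) ∣ (d : ℤ) := (Int.natCast_dvd_natCast.2 hpd).trans (Int.gcd_dvd_right ..)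
  exact h p (Nat.mem_primeFactors.2 ⟨hp, by exact_mod_cast h2, hd⟩) h1

private lemma ceil_facts (x : ℝ) (hx : 1 ≤ x) :
    x ≤ (⌈x⌉₊ : ℝ) ∧ (⌈x⌉₊ : ℝ) ≤ 2 * x ∧ 1 ≤ ⌈x⌉₊ := by
  refine ⟨Nat.le_ceil _, ?_, Nat.one_le_ceil_iff.2 (by linarith)⟩
  have := Nat.ceil_lt_add_one (show 0 ≤ x by linarith)
  linarith

theorem ap2 (ε : ℝ) (hε : 0 < ε) :
    ∃ lam0 : ℝ, 0 < lam0 ∧ ∀ lam : ℝ, 0 < lam → lam ≤ lam0 → ∀ (S : Finset ℕ) (G : ℕ),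
      ∃ C : ℝ, 1 ≤ C ∧ ∀ N Y0 Y1 : ℕ, 1 ≤ N → 1 ≤ Y0 → Y0 ≤ Y1 → (Y1 : ℝ) ≤ (N : ℝ) ^ lam →
      ∀ T : Finset (Fin 3 → ℤ),
      (∀ a ∈ T, (∀ i, a i ≠ 0 ∧ (a i).natAbs ≤ N) ∧ radS S (a 0) ≤ Y0 ∧ radS S (a 1) ≤ Y1 ∧
        (radS S (a 2) : ℝ) ≤ (N : ℝ) ^ lam ∧ a 0 + a 1 + a 2 = 0 ∧ (∃ i, (N : ℤ) ≤ G * |a i|) ∧
        (∀ g : ℤ, (∀ i, g ∣ a i) → |g| ≤ G) ∧
        ∀ p : ℕ, p.Prime → p ∉ S → ∀ i j, i ≠ j → (p : ℤ) ∣ a i → ¬ (p : ℤ) ∣ a j) →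
      (T.card : ℝ) ≤ C * (Real.sqrt ((Y0 : ℝ) * Y1) * (N : ℝ) ^ (ε * lam)) := by
  classical
  obtain ⟨κ, hκ0, hκε, hκ1⟩ : ∃ κ : ℝ, 0 < κ ∧ κ ≤ ε / 16 ∧ κ ≤ 1 / 16 :=
    ⟨min (ε / 16) (1 / 16), lt_min (by linarith) (by norm_num), min_le_left _ _, min_le_right _ _⟩
  obtain ⟨H1, hH1, hH1κ⟩ : ∃ H : ℕ, 1 ≤ H ∧ 4 ≤ κ * H := by
    refine ⟨⌈4 / κ⌉₊, Nat.one_le_ceil_iff.2 (by positivity), ?_⟩
    have h1 := Nat.le_ceil (4 / κ)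
    rw [div_le_iff₀ hκ0] at h1
    linarith
  obtain ⟨M1, hM1, hM1κ⟩ : ∃ M1 : ℕ, 1 ≤ M1 ∧ 5 ≤ κ * M1 := by
    refine ⟨⌈5 / κ⌉₊, Nat.one_le_ceil_iff.2 (by positivity), ?_⟩
    have h1 := Nat.le_ceil (5 / κ)
    rw [div_le_iff₀ hκ0] at h1
    linarith
  obtain ⟨M2, hM2, hPLr⟩ := regimePL M1 H1 hM1 (κ / 2) (ε / 4) (by positivity) (by positivity)
  obtain ⟨M3, hM3a, hM3b⟩ : ∃ M3 : ℕ, M1 ≤ M3 ∧ M2 ≤ M3 :=
    ⟨max M1 M2, le_max_left _ _, le_max_right _ _⟩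
  have hM3 : 1 ≤ M3 := hM1.trans hM3a
  have hM3R : (1 : ℝ) ≤ M3 := by exact_mod_cast hM3
  obtain ⟨κ2, hκ20, hκ2κ, hκ2M⟩ : ∃ κ2 : ℝ, 0 < κ2 ∧ κ2 ≤ κ / 2 ∧ κ2 * M3 ≤ 1 / 2 := by
    refine ⟨min (κ / 2) (1 / (2 * M3)), lt_min (by positivity) (by positivity), min_le_left _ _, ?_⟩
    calc min (κ / 2) (1 / (2 * (M3 : ℝ))) * M3 ≤ 1 / (2 * (M3 : ℝ)) * M3 :=
          mul_le_mul_of_nonneg_right (min_le_right _ _) (by linarith)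
      _ = 1 / 2 := by field_simp
  obtain ⟨H3, hH3, hH3κ⟩ : ∃ H : ℕ, 1 ≤ H ∧ 2 ≤ κ2 * H := by
    refine ⟨⌈2 / κ2⌉₊, Nat.one_le_ceil_iff.2 (by positivity), ?_⟩
    have h1 := Nat.le_ceil (2 / κ2)
    rw [div_le_iff₀ hκ20] at h1
    linarith
  obtain ⟨m0, hm0, hreg2⟩ := regime2V M3 H3 hM3 hH3 (ε / 4) (by positivity)
  have hm0R : (1 : ℝ) ≤ m0 := by exact_mod_cast hm0
  have hM1R : (1 : ℝ) ≤ M1 := by exact_mod_cast hM1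
  refine ⟨1 / (2 * (m0 + M1)), by positivity, ?_⟩
  intro lam hlam hlam0 S G
  have hlam1 : lam * (m0 + M1) ≤ 1 / 2 := by
    rw [le_div_iff₀ (by positivity)] at hlam0
    linarith
  obtain ⟨m, hmdef⟩ : ∃ m : ℕ, m = ⌈1 / lam⌉₊ := ⟨_, rfl⟩
  have hmlam : 1 ≤ lam * m := by
    have h1 := Nat.le_ceil (1 / lam)
    rw [← hmdef, div_le_iff₀ hlam] at h1
    linarith
  have hmle : ∀ t : ℕ, lam * t ≤ 1 / 2 → t ≤ m := by
    intro t ht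
    have h3 : lam * t ≤ lam * m := by linarith
    have h1 : (t : ℝ) ≤ m := le_of_mul_le_mul_left h3 hlam
    exact_mod_cast h1
  have hmm0 : m0 ≤ m := hmle m0 (by linarith [mul_nonneg hlam.le (show (0:ℝ) ≤ M1 by linarith)])
  have hmM1 : M1 ≤ H1 * m := (hmle M1 (by linarith [mul_nonneg hlam.le (show (0:ℝ) ≤ m0 by linarith)])).trans (Nat.le_mul_of_pos_left _ hH1)
  obtain ⟨E, hE, hEl⟩ : ∃ E : ℕ, 1 ≤ E ∧ 2 / ((E : ℝ) + 1) ≤ ε / 4 * lam := by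
    refine ⟨⌈2 / (ε / 4 * lam)⌉₊, Nat.one_le_ceil_iff.2 (by positivity), ?_⟩
    have h1 := Nat.le_ceil (2 / (ε / 4 * lam))
    rw [div_le_iff₀ (by positivity)] at h1
    rw [div_le_iff₀ (by positivity)]
    nlinarith [mul_pos (show (0 : ℝ) < ε / 4 by linarith) hlam]
  obtain ⟨C1, hC1, hc1⟩ := regime1V M1 E hE S (ε / 4 * lam) (by positivity)
  obtain ⟨C2, hC2, hc2⟩ := hPLr m hmM1 S (ε / 4 * lam) (by positivity)
  obtain ⟨C3, hC3, hc3⟩ := hreg2 m hmm0 S (ε / 4 * lam) (by positivity)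
  obtain ⟨Na, hNa1, hNa⟩ := ap2_large lam hlam ((3 * 2 ^ E) ^ 4)
  obtain ⟨Nb, hNb1, hNb⟩ := ap2_large (1 / 2) (by norm_num) (2 * (G : ℝ) ^ 2 * 3 ^ m0 + 1)
  obtain ⟨Nc, hNc1, hNc⟩ := ap2_large (lam / 2) (by positivity) (2 ^ M3 + 4)
  obtain ⟨N1, hN1a, hN1b, hN1c⟩ : ∃ N1 : ℕ, Na ≤ N1 ∧ Nb ≤ N1 ∧ Nc ≤ N1 :=
    ⟨max Na (max Nb Nc), le_max_left _ _, (le_max_left _ _).trans (le_max_right _ _),
      (le_max_right _ _).trans (le_max_right _ _)⟩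
  have h3ε : (1 : ℝ) ≤ 3 ^ (ε / 4) := Real.one_le_rpow (by norm_num) (by positivity)
  obtain ⟨K1, hK1⟩ : ∃ K1 : ℝ, K1 = C1 * 4 := ⟨_, rfl⟩
  obtain ⟨K2, hK2⟩ : ∃ K2 : ℝ, K2 = C2 * (2 ^ 4 * 3 ^ (ε / 4)) := ⟨_, rfl⟩
  obtain ⟨K3, hK3⟩ : ∃ K3 : ℝ, K3 = C3 * (2 ^ 4 * 3 ^ (ε / 4)) := ⟨_, rfl⟩
  have hK10 : 0 ≤ K1 := by rw [hK1]; positivity
  have hK20 : 0 ≤ K2 := by rw [hK2]; positivity
  have hK30 : 0 ≤ K3 := by rw [hK3]; positivity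
  have htriv0 : (1 : ℝ) ≤ (2 * (N1 : ℝ) + 1) ^ 3 :=
    one_le_pow₀ (by have : (0 : ℝ) ≤ N1 := Nat.cast_nonneg N1; linarith)
  refine ⟨(2 * (N1 : ℝ) + 1) ^ 3 + (K1 + K2 + K3), by linarith, ?_⟩
  intro N Y0 Y1 hN hY0 hY01 hY1 T hT
  have hNR : (1 : ℝ) ≤ (N : ℝ) := by exact_mod_cast hN
  have hN0 : (0 : ℝ) < (N : ℝ) := by linarith
  have hY0R : (1 : ℝ) ≤ (Y0 : ℝ) := by exact_mod_cast hY0
  have hY01R : (Y0 : ℝ) ≤ (Y1 : ℝ) := by exact_mod_cast hY01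
  obtain ⟨sq, hsq⟩ : ∃ sq : ℝ, sq = Real.sqrt ((Y0 : ℝ) * Y1) := ⟨_, rfl⟩
  have hY0sq : (Y0 : ℝ) ≤ sq := by
    rw [hsq]
    apply Real.le_sqrt_of_sq_le
    nlinarith
  have hsq1 : 1 ≤ sq := hY0R.trans hY0sq
  have hpow1 : (1 : ℝ) ≤ (N : ℝ) ^ (ε * lam) := Real.one_le_rpow hNR (by positivity)
  rw [← hsq]
  rcases le_or_gt N N1 with hNN1 | hNN1
  · have h1 := ap2_triv N N1 hNN1 T (fun a ha i => ((hT a ha).1 i).2)
    have h3 : (1 : ℝ) ≤ sq * (N : ℝ) ^ (ε * lam) := by nlinarith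
    calc (T.card : ℝ) ≤ (2 * (N1 : ℝ) + 1) ^ 3 + (K1 + K2 + K3) := by linarith
      _ = ((2 * (N1 : ℝ) + 1) ^ 3 + (K1 + K2 + K3)) * 1 := by ring
      _ ≤ _ := mul_le_mul_of_nonneg_left h3 (by linarith)
  -- the main case
  have hNa' := hNa N (by omega)
  have hNb' := hNb N (by omega)
  have hNc' := hNc N (by omega)
  obtain ⟨y0, hy0⟩ : ∃ y0 : ℝ, y0 = (N : ℝ) ^ lam := ⟨_, rfl⟩
  have hy01 : 1 ≤ y0 := by rw [hy0]; exact Real.one_le_rpow hNR hlam.le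
  rw [← hy0] at hNa'
  obtain ⟨X, hX⟩ : ∃ X : ℕ, X = ⌈y0⌉₊ + 1 := ⟨_, rfl⟩
  have hXl : y0 ≤ (X : ℝ) := by
    have := Nat.le_ceil y0
    rw [hX]; push_cast; linarith
  have hXu : (X : ℝ) ≤ 3 * y0 := by
    have := Nat.ceil_lt_add_one (show 0 ≤ y0 by linarith)
    rw [hX]; push_cast; linarith
  have hX2 : 2 ≤ X := by
    have h1 : 1 ≤ ⌈y0⌉₊ := Nat.one_le_ceil_iff.2 (by linarith)
    omega
  obtain ⟨w1, hw1⟩ : ∃ w1 : ℝ, w1 = (N : ℝ) ^ (κ * lam / 2) := ⟨_, rfl⟩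
  have hw11 : 1 ≤ w1 := by rw [hw1]; exact Real.one_le_rpow hNR (by positivity)
  obtain ⟨W1, hW1⟩ : ∃ W : ℕ, W = ⌈w1⌉₊ := ⟨_, rfl⟩
  obtain ⟨hW1l, hW1u, hW11⟩ := ceil_facts w1 hw11
  rw [← hW1] at hW1l hW1u hW11
  obtain ⟨w2, hw2⟩ : ∃ w2 : ℝ, w2 = (N : ℝ) ^ (κ2 * lam) := ⟨_, rfl⟩
  have hw21 : 1 ≤ w2 := by rw [hw2]; exact Real.one_le_rpow hNR (by positivity)
  obtain ⟨W2, hW2⟩ : ∃ W : ℕ, W = ⌈w2⌉₊ := ⟨_, rfl⟩
  obtain ⟨hW2l, hW2u, hW21⟩ := ceil_facts w2 hw21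
  rw [← hW2] at hW2l hW2u hW21
  obtain ⟨d0, hd0⟩ : ∃ d0 : ℝ, d0 = (N : ℝ) ^ (κ * lam) := ⟨_, rfl⟩
  have hd01 : 1 ≤ d0 := by rw [hd0]; exact Real.one_le_rpow hNR (by positivity)
  obtain ⟨D, hD⟩ : ∃ D : ℕ, D = ⌈d0⌉₊ := ⟨_, rfl⟩
  obtain ⟨hDl, hDu, hD1⟩ := ceil_facts d0 hd01
  rw [← hD] at hDl hDu hD1
  have hW12 : W2 ≤ W1 := by
    rw [hW1, hW2]
    apply Nat.ceil_mono
    rw [hw1, hw2]
    apply Real.rpow_le_rpow_of_exponent_le hNR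
    linarith [mul_le_mul_of_nonneg_right hκ2κ hlam.le]
  have hW1X : W1 ≤ X := by
    have h1 : w1 ≤ y0 := by
      rw [hw1, hy0]
      apply Real.rpow_le_rpow_of_exponent_le hNR
      linarith [mul_le_mul_of_nonneg_right hκ1 hlam.le]
    have h2 : ⌈w1⌉₊ ≤ ⌈y0⌉₊ := Nat.ceil_mono h1
    omega
  have hW2X : W2 ≤ X := hW12.trans hW1X
  have h3E : (1 : ℝ) ≤ 2 ^ E := one_le_pow₀ (by norm_num)
  have h81 : (3 : ℝ) ≤ y0 := by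
    have h1 : (3 : ℝ) ≤ (3 * 2 ^ E) ^ 4 := by
      have h2 : (3 : ℝ) ≤ 3 * 2 ^ E := by linarith
      calc (3 : ℝ) ≤ 3 * 2 ^ E := h2
        _ = (3 * 2 ^ E) ^ 1 := (pow_one _).symm
        _ ≤ (3 * 2 ^ E) ^ 4 := pow_le_pow_right₀ (by linarith) (by norm_num)
    linarith
  have hXyy : (X : ℝ) ≤ (N : ℝ) ^ (lam + lam) := by
    calc (X : ℝ) ≤ 3 * y0 := hXu
      _ ≤ y0 * y0 := by nlinarith
      _ = (N : ℝ) ^ (lam + lam) := by rw [hy0, Real.rpow_add hN0]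
  have hXW1 : X ≤ W1 ^ H1 := by
    have h1 : (X : ℝ) ≤ (W1 : ℝ) ^ H1 := by
      calc (X : ℝ) ≤ (N : ℝ) ^ (lam + lam) := hXyy
        _ ≤ (N : ℝ) ^ (κ * lam / 2 * (H1 : ℝ)) := by
            apply Real.rpow_le_rpow_of_exponent_le hNR
            linarith [mul_le_mul_of_nonneg_right hH1κ hlam.le]
        _ = w1 ^ H1 := by rw [hw1, Real.rpow_mul hN0.le, Real.rpow_natCast]
        _ ≤ (W1 : ℝ) ^ H1 := pow_le_pow_left₀ (by linarith) hW1l _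
    exact_mod_cast h1
  have hNW1 : N ≤ W1 ^ (H1 * m) := by
    have h1 : (N : ℝ) ≤ (W1 : ℝ) ^ (H1 * m) := by
      calc (N : ℝ) = (N : ℝ) ^ (1 : ℝ) := (Real.rpow_one _).symm
        _ ≤ (N : ℝ) ^ (κ * lam / 2 * ((H1 * m : ℕ) : ℝ)) := by
          apply Real.rpow_le_rpow_of_exponent_le hNR
          push_cast
          have h2 : 4 * 1 ≤ (κ * H1) * (lam * m) :=
            mul_le_mul hH1κ hmlam (by norm_num) (by positivity)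
          linarith [h2]
        _ = w1 ^ (H1 * m) := by rw [hw1, Real.rpow_mul hN0.le, Real.rpow_natCast]
        _ ≤ (W1 : ℝ) ^ (H1 * m) := pow_le_pow_left₀ (by linarith) hW1l _
    exact_mod_cast h1
  have hXW2 : X ≤ W2 ^ H3 := by
    have h1 : (X : ℝ) ≤ (W2 : ℝ) ^ H3 := by
      calc (X : ℝ) ≤ (N : ℝ) ^ (lam + lam) := hXyy
        _ ≤ (N : ℝ) ^ (κ2 * lam * (H3 : ℝ)) := by
            apply Real.rpow_le_rpow_of_exponent_le hNR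
            linarith [mul_le_mul_of_nonneg_right hH3κ hlam.le]
        _ = w2 ^ H3 := by rw [hw2, Real.rpow_mul hN0.le, Real.rpow_natCast]
        _ ≤ (W2 : ℝ) ^ H3 := pow_le_pow_left₀ (by linarith) hW2l _
    exact_mod_cast h1
  have hNW2 : N ≤ W2 ^ (H3 * m) := by
    have h1 : (N : ℝ) ≤ (W2 : ℝ) ^ (H3 * m) := by
      calc (N : ℝ) = (N : ℝ) ^ (1 : ℝ) := (Real.rpow_one _).symm
        _ ≤ (N : ℝ) ^ (κ2 * lam * ((H3 * m : ℕ) : ℝ)) := by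
          apply Real.rpow_le_rpow_of_exponent_le hNR
          push_cast
          have h2 : 2 * 1 ≤ (κ2 * H3) * (lam * m) :=
            mul_le_mul hH3κ hmlam (by norm_num) (by positivity)
          linarith [h2]
        _ = w2 ^ (H3 * m) := by rw [hw2, Real.rpow_mul hN0.le, Real.rpow_natCast]
        _ ≤ (W2 : ℝ) ^ (H3 * m) := pow_le_pow_left₀ (by linarith) hW2l _
    exact_mod_cast h1
  have hbig : (2 ^ E * X) ^ 4 ≤ D ^ M1 := by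
    have h1 : ((2 ^ E * (X : ℝ)) ^ 4) ≤ (D : ℝ) ^ M1 := by
      have h2 : y0 ^ 5 ≤ d0 ^ M1 := by
        have e1 : y0 ^ 5 = (N : ℝ) ^ (lam * 5) := by
          rw [hy0, Real.rpow_mul hN0.le]
          exact (Real.rpow_natCast _ 5).symm
        have e2 : d0 ^ M1 = (N : ℝ) ^ (κ * lam * (M1 : ℝ)) := by
          rw [hd0, Real.rpow_mul hN0.le (κ * lam) (M1 : ℝ), Real.rpow_natCast]
        rw [e1, e2]
        apply Real.rpow_le_rpow_of_exponent_le hNR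
        linarith [mul_le_mul_of_nonneg_right hM1κ hlam.le]
      calc ((2 ^ E * (X : ℝ)) ^ 4) ≤ (2 ^ E * (3 * y0)) ^ 4 := by gcongr
        _ = (3 * 2 ^ E) ^ 4 * y0 ^ 4 := by ring
        _ ≤ y0 * y0 ^ 4 := mul_le_mul_of_nonneg_right hNa' (by positivity)
        _ = y0 ^ 5 := by ring
        _ ≤ d0 ^ M1 := h2
        _ ≤ (D : ℝ) ^ M1 := pow_le_pow_left₀ (by linarith) hDl _
    exact_mod_cast h1
  have hhalf : (N : ℝ) ^ (lam / 2) * (N : ℝ) ^ (lam / 2) = y0 := by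
    rw [hy0, ← Real.rpow_add hN0]
    congr 1
    ring
  have hhalf1 : (1 : ℝ) ≤ (N : ℝ) ^ (lam / 2) := Real.one_le_rpow hNR (by positivity)
  have hW2M : W2 ^ M3 ≤ X := by
    have h1 : ((W2 : ℝ)) ^ M3 ≤ (X : ℝ) := by
      have e1 : w2 ^ M3 ≤ (N : ℝ) ^ (lam / 2) := by
        rw [hw2, ← Real.rpow_natCast, ← Real.rpow_mul hN0.le]
        apply Real.rpow_le_rpow_of_exponent_le hNR
        linarith [mul_le_mul_of_nonneg_right hκ2M hlam.le]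
      calc (W2 : ℝ) ^ M3 ≤ (2 * w2) ^ M3 := pow_le_pow_left₀ (Nat.cast_nonneg _) hW2u _
        _ = 2 ^ M3 * w2 ^ M3 := by rw [mul_pow]
        _ ≤ (N : ℝ) ^ (lam / 2) * (N : ℝ) ^ (lam / 2) :=
            mul_le_mul (by linarith) e1 (by positivity) (by positivity)
        _ = y0 := hhalf
        _ ≤ X := hXl
    exact_mod_cast h1
  have hVX : D * W2 ≤ X := by
    have h1 : ((D : ℝ) * W2) ≤ (X : ℝ) := by
      have e1 : d0 * w2 ≤ (N : ℝ) ^ (lam / 2) := by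
        rw [hd0, hw2, ← Real.rpow_add hN0]
        apply Real.rpow_le_rpow_of_exponent_le hNR
        linarith [mul_le_mul_of_nonneg_right hκ1 hlam.le, mul_le_mul_of_nonneg_right hκ2κ hlam.le]
      have e2 : (4 : ℝ) ≤ (N : ℝ) ^ (lam / 2) := by
        have : (0 : ℝ) ≤ 2 ^ M3 := by positivity
        linarith
      calc (D : ℝ) * W2 ≤ (2 * d0) * (2 * w2) := by gcongr
        _ = 4 * (d0 * w2) := by ring
        _ ≤ (N : ℝ) ^ (lam / 2) * (N : ℝ) ^ (lam / 2) :=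
            mul_le_mul e2 e1 (by positivity) (by positivity)
        _ = y0 := hhalf
        _ ≤ X := hXl
    exact_mod_cast h1
  have hXκD : (X : ℝ) ^ (κ / 2) ≤ (D : ℝ) := by
    calc (X : ℝ) ^ (κ / 2) ≤ ((N : ℝ) ^ (lam + lam)) ^ (κ / 2) :=
          Real.rpow_le_rpow (Nat.cast_nonneg _) hXyy (by positivity)
      _ = d0 := by
          rw [hd0, ← Real.rpow_mul hN0.le]
          congr 1
          ring
      _ ≤ D := hDl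
  have hY1X : Y1 ≤ X := by
    have h1 : (Y1 : ℝ) ≤ (X : ℝ) := by
      rw [← hy0] at hY1
      linarith
    exact_mod_cast h1
  have hR0 : ∀ a ∈ T, a 0 ∈ Rset S Y0 N := by
    intro a ha
    rw [mem_Rset]
    exact ⟨((hT a ha).1 0).1, ((hT a ha).1 0).2, (hT a ha).2.1⟩
  have hR1 : ∀ a ∈ T, a 1 ∈ Rset S Y1 N := by
    intro a ha
    rw [mem_Rset]
    exact ⟨((hT a ha).1 1).1, ((hT a ha).1 1).2, (hT a ha).2.2.1⟩
  have hR1X : ∀ a ∈ T, a 1 ∈ Rset S X N := by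
    intro a ha
    rw [mem_Rset]
    exact ⟨((hT a ha).1 1).1, ((hT a ha).1 1).2, (hT a ha).2.2.1.trans hY1X⟩
  have hR2X : ∀ a ∈ T, a 2 ∈ Rset S X N := by
    intro a ha
    rw [mem_Rset]
    refine ⟨((hT a ha).1 2).1, ((hT a ha).1 2).2, ?_⟩
    have h3 := (hT a ha).2.2.2.1
    have h4 : (radS S (a 2) : ℝ) ≤ (X : ℝ) := by
      rw [← hy0] at h3
      linarith
    exact_mod_cast h4
  -- splitting
  obtain ⟨T1, hT1⟩ : ∃ T1, T1 = T.filter (fun a => D < radM S M1 W1 (a 2)) := ⟨_, rfl⟩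
  obtain ⟨T2, hT2⟩ : ∃ T2, T2 = T.filter (fun a => radM S M1 W1 (a 2) ≤ D ∧
    D < radM S M3 W2 (a 1)) := ⟨_, rfl⟩
  obtain ⟨T3, hT3⟩ : ∃ T3, T3 = T.filter (fun a => radM S M1 W1 (a 2) ≤ D ∧
    radM S M3 W2 (a 1) ≤ D) := ⟨_, rfl⟩
  have hcard : T.card ≤ T1.card + T2.card + T3.card := by
    have h1 : T ⊆ T1 ∪ T2 ∪ T3 := by
      intro a ha
      rw [Finset.mem_union, Finset.mem_union, hT1, hT2, hT3, Finset.mem_filter, Finset.mem_filter,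
        Finset.mem_filter]
      rcases lt_or_ge D (radM S M1 W1 (a 2)) with h | h
      · exact Or.inl (Or.inl ⟨ha, h⟩)
      · rcases lt_or_ge D (radM S M3 W2 (a 1)) with h' | h'
        · exact Or.inl (Or.inr ⟨ha, h, h'⟩)
        · exact Or.inr ⟨ha, h, h'⟩
    calc T.card ≤ (T1 ∪ T2 ∪ T3).card := Finset.card_le_card h1
      _ ≤ (T1 ∪ T2).card + T3.card := Finset.card_union_le _ _
      _ ≤ T1.card + T2.card + T3.card := Nat.add_le_add_right (Finset.card_union_le _ _) _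
  have h1 : (T1.card : ℝ) ≤ C1 * ((D * W1 : ℕ) : ℝ) *
      (sq * (N : ℝ) ^ (2 / ((E : ℝ) + 1) + ε / 4 * lam)) := by
    rw [hsq]
    apply hc1 Y0 Y1 N hY0 (hY0.trans hY01) hN (D * W1) T1
    intro a ha
    rw [hT1, Finset.mem_filter] at ha
    obtain ⟨haT, hbad⟩ := ha
    obtain ⟨hA, -, -, -, hsum, -, -, hpr⟩ := hT a haT
    obtain ⟨d, hds, hDd, hdu, hdvd, hdp⟩ := bad_d S M1 W1 D (a 2) hW11 hD1 hbad
    have hd0' : d ≠ 0 := hds.ne_zero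
    refine ⟨hR0 a haT, hR1 a haT, (hA 2).1, (hA 2).2, hsum, d, Nat.one_le_iff_ne_zero.2 hd0', hdu,
      by rw [Nat.cast_pow]; exact hdvd, ?_, ?_, ?_, ?_⟩
    · exact cop_of _ d hd0' fun p hp => hpr p (hdp p hp).1 (hdp p hp).2.1 2 0 (by decide)
        (hdp p hp).2.2.2
    · exact cop_of _ d hd0' fun p hp => hpr p (hdp p hp).1 (hdp p hp).2.1 2 1 (by decide)
        (hdp p hp).2.2.2
    · calc (2 ^ E * Y0) ^ 4 ≤ (2 ^ E * X) ^ 4 :=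
            Nat.pow_le_pow_left (Nat.mul_le_mul_left _ (hY01.trans hY1X)) 4
        _ ≤ D ^ M1 := hbig
        _ ≤ d ^ M1 := Nat.pow_le_pow_left hDd _
    · calc (2 ^ E * Y1) ^ 4 ≤ (2 ^ E * X) ^ 4 :=
            Nat.pow_le_pow_left (Nat.mul_le_mul_left _ hY1X) 4
        _ ≤ D ^ M1 := hbig
        _ ≤ d ^ M1 := Nat.pow_le_pow_left hDd _
  have h2 : (T2.card : ℝ) ≤ C2 * ((D * W2 : ℕ) : ℝ) * (D : ℝ) ^ 2 *
      ((Y0 : ℝ) * ((X : ℝ) ^ (ε / 4) * (N : ℝ) ^ (ε / 4 * lam))) := by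
    apply hc2 N X W1 D Y0 hN hX2 hW1X hD1 hXW1 hNW1 hY0 (D * W2) hVX T2
    intro a ha
    rw [hT2, Finset.mem_filter] at ha
    obtain ⟨haT, hgood, hbad⟩ := ha
    obtain ⟨hA, -, -, -, hsum, -, -, hpr⟩ := hT a haT
    obtain ⟨d, hds, hDd, hdu, hdvd, hdp⟩ := bad_d S M3 W2 D (a 1) hW21 hD1 hbad
    refine ⟨hR0 a haT, hR2X a haT, hgood, hsum, d, hds, hdu, ?_, ?_, ?_, ?_⟩
    · exact hXκD.trans (by exact_mod_cast hDd)
    · intro p hp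
      have hpp := (hdp p hp).1
      calc p ^ M2 ≤ p ^ M3 := Nat.pow_le_pow_right hpp.pos hM3b
        _ ≤ W2 ^ M3 := Nat.pow_le_pow_left (hdp p hp).2.2.1 _
        _ ≤ X := hW2M
    · exact (pow_dvd_pow _ hM3b).trans hdvd
    · intro p hp
      exact hpr p (hdp p hp).1 (hdp p hp).2.1 1 2 (by decide) (hdp p hp).2.2.2
  have h3 : (T3.card : ℝ) ≤ C3 * (D : ℝ) ^ 4 *
      ((Y0 : ℝ) * ((X : ℝ) ^ (ε / 4) * (N : ℝ) ^ (ε / 4 * lam))) := by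
    apply hc3 N X W2 D Y0 hN hX2 hW2X hD1 hXW2 hNW2 hY0 T3
    intro a ha
    rw [hT3, Finset.mem_filter] at ha
    obtain ⟨haT, hgood2, hgood1⟩ := ha
    obtain ⟨hA, -, -, -, hsum, ⟨j, hj⟩, hg, hpr⟩ := hT a haT
    refine ⟨hR0 a haT, hR1X a haT, hR2X a haT, hgood1, (radM_mono S hM3a hW12 _).trans hgood2,
      hsum, ?_⟩
    have hX3 : (X : ℝ) ^ m0 ≤ 3 ^ m0 * (N : ℝ) ^ ((1 : ℝ) / 2) := by
      have e1 : (X : ℝ) ^ m0 ≤ 3 ^ m0 * y0 ^ m0 := by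
        rw [← mul_pow]
        exact pow_le_pow_left₀ (Nat.cast_nonneg _) hXu _
      have e2 : y0 ^ m0 ≤ (N : ℝ) ^ ((1 : ℝ) / 2) := by
        rw [hy0, ← Real.rpow_natCast, ← Real.rpow_mul hN0.le]
        apply Real.rpow_le_rpow_of_exponent_le hNR
        linarith [mul_nonneg hlam.le (show (0:ℝ) ≤ M1 by linarith)]
      exact e1.trans (mul_le_mul_of_nonneg_left e2 (by positivity))
    have hs : (N : ℝ) ^ ((1 : ℝ) / 2) * (N : ℝ) ^ ((1 : ℝ) / 2) = N := by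
      rw [← Real.rpow_add hN0]
      norm_num
    have hsp : (0 : ℝ) < (N : ℝ) ^ ((1 : ℝ) / 2) := Real.rpow_pos_of_pos hN0 _
    have hlt : (2 * (G : ℝ) * ((G : ℝ) * (X : ℝ) ^ m0)) < N := by
      calc (2 * (G : ℝ) * ((G : ℝ) * (X : ℝ) ^ m0))
          = 2 * (G : ℝ) ^ 2 * (X : ℝ) ^ m0 := by ring
        _ ≤ 2 * (G : ℝ) ^ 2 * (3 ^ m0 * (N : ℝ) ^ ((1 : ℝ) / 2)) :=
            mul_le_mul_of_nonneg_left hX3 (by positivity)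
        _ = (2 * (G : ℝ) ^ 2 * 3 ^ m0) * (N : ℝ) ^ ((1 : ℝ) / 2) := by ring
        _ < (N : ℝ) ^ ((1 : ℝ) / 2) * (N : ℝ) ^ ((1 : ℝ) / 2) := by
            apply mul_lt_mul_of_pos_right _ hsp
            linarith
        _ = N := hs
    have hlt' : 2 * (G : ℤ) * ((G : ℤ) * (X : ℤ) ^ m0) < N := by exact_mod_cast hlt
    refine noSmall3 (a 0) (a 1) (a 2) (G : ℤ) ((X : ℤ) ^ m0) N (hA 0).1 (hA 1).1 hsum
      (by positivity) (by positivity) (fun g g0 g1 g2 => ?_) ?_ hlt'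
    · refine hg g fun i => ?_
      fin_cases i
      · exact g0
      · exact g1
      · exact g2
    · fin_cases j
      · exact Or.inl hj
      · exact Or.inr (Or.inl hj)
      · exact Or.inr (Or.inr hj)
  -- sizes
  have hsz1 : (T1.card : ℝ) ≤ K1 * (sq * (N : ℝ) ^ (ε * lam)) := by
    have e1 : ((D * W1 : ℕ) : ℝ) ≤ 4 * ((N : ℝ) ^ (κ * lam) * (N : ℝ) ^ (κ * lam / 2)) := by
      push_cast
      calc (D : ℝ) * W1 ≤ (2 * d0) * (2 * w1) := by gcongr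
        _ = _ := by rw [hd0, hw1]; ring
    have e3 : (N : ℝ) ^ (κ * lam) * (N : ℝ) ^ (κ * lam / 2) *
        (N : ℝ) ^ (2 / ((E : ℝ) + 1) + ε / 4 * lam) ≤ (N : ℝ) ^ (ε * lam) := by
      rw [← Real.rpow_add hN0, ← Real.rpow_add hN0]
      apply Real.rpow_le_rpow_of_exponent_le hNR
      linarith [mul_le_mul_of_nonneg_right hκε hlam.le, mul_pos hε hlam]
    calc (T1.card : ℝ) ≤ C1 * ((D * W1 : ℕ) : ℝ) *
          (sq * (N : ℝ) ^ (2 / ((E : ℝ) + 1) + ε / 4 * lam)) := h1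
      _ ≤ C1 * (4 * ((N : ℝ) ^ (κ * lam) * (N : ℝ) ^ (κ * lam / 2))) *
          (sq * (N : ℝ) ^ (2 / ((E : ℝ) + 1) + ε / 4 * lam)) := by gcongr
      _ = K1 * (sq * ((N : ℝ) ^ (κ * lam) * (N : ℝ) ^ (κ * lam / 2) *
          (N : ℝ) ^ (2 / ((E : ℝ) + 1) + ε / 4 * lam))) := by rw [hK1]; ring
      _ ≤ _ := by gcongr
  have eX : (X : ℝ) ^ (ε / 4) ≤ 3 ^ (ε / 4) * (N : ℝ) ^ (lam * (ε / 4)) := by
    calc (X : ℝ) ^ (ε / 4) ≤ (3 * y0) ^ (ε / 4) :=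
          Real.rpow_le_rpow (Nat.cast_nonneg _) hXu (by positivity)
      _ = _ := by
          rw [Real.mul_rpow (by norm_num) (by linarith), hy0, ← Real.rpow_mul hN0.le]
  have eD : (D : ℝ) ^ 4 ≤ 2 ^ 4 * (N : ℝ) ^ (κ * lam * 4) := by
    calc (D : ℝ) ^ 4 ≤ (2 * d0) ^ 4 := pow_le_pow_left₀ (Nat.cast_nonneg _) hDu _
      _ = 2 ^ 4 * (N : ℝ) ^ (κ * lam * 4) := by
          rw [mul_pow, hd0, Real.rpow_mul hN0.le (κ * lam) 4]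
          congr 1
          exact (Real.rpow_natCast _ 4).symm
  have eDW : ((D * W2 : ℕ) : ℝ) * (D : ℝ) ^ 2 ≤ 2 ^ 4 * (N : ℝ) ^ (κ * lam * 4) := by
    have e1 : w2 ≤ d0 := by
      rw [hw2, hd0]
      apply Real.rpow_le_rpow_of_exponent_le hNR
      linarith [mul_le_mul_of_nonneg_right hκ2κ hlam.le, mul_pos hκ0 hlam]
    push_cast
    calc (D : ℝ) * W2 * (D : ℝ) ^ 2 ≤ (2 * d0) * (2 * d0) * (2 * d0) ^ 2 := by
          have : (W2 : ℝ) ≤ 2 * d0 := by linarith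
          gcongr
      _ = 2 ^ 4 * d0 ^ 4 := by ring
      _ = 2 ^ 4 * (N : ℝ) ^ (κ * lam * 4) := by
          rw [hd0, Real.rpow_mul hN0.le (κ * lam) 4]
          congr 1
          exact (Real.rpow_natCast _ 4).symm
  have e3 : (N : ℝ) ^ (κ * lam * 4) * ((N : ℝ) ^ (lam * (ε / 4)) *
      (N : ℝ) ^ (ε / 4 * lam)) ≤ (N : ℝ) ^ (ε * lam) := by
    rw [← Real.rpow_add hN0, ← Real.rpow_add hN0]
    apply Real.rpow_le_rpow_of_exponent_le hNR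
    linarith [mul_le_mul_of_nonneg_right hκε hlam.le, mul_pos hε hlam]
  have hgen : ∀ Cc : ℝ, 0 ≤ Cc → Cc * (2 ^ 4 * (N : ℝ) ^ (κ * lam * 4)) *
      ((Y0 : ℝ) * ((X : ℝ) ^ (ε / 4) * (N : ℝ) ^ (ε / 4 * lam))) ≤
      Cc * (2 ^ 4 * 3 ^ (ε / 4)) * (sq * (N : ℝ) ^ (ε * lam)) := by
    intro Cc hCc
    calc Cc * (2 ^ 4 * (N : ℝ) ^ (κ * lam * 4)) *
          ((Y0 : ℝ) * ((X : ℝ) ^ (ε / 4) * (N : ℝ) ^ (ε / 4 * lam)))
        ≤ Cc * (2 ^ 4 * (N : ℝ) ^ (κ * lam * 4)) *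
          (sq * ((3 ^ (ε / 4) * (N : ℝ) ^ (lam * (ε / 4))) * (N : ℝ) ^ (ε / 4 * lam))) := by
          gcongr
      _ = Cc * (2 ^ 4 * 3 ^ (ε / 4)) * (sq * ((N : ℝ) ^ (κ * lam * 4) *
          ((N : ℝ) ^ (lam * (ε / 4)) * (N : ℝ) ^ (ε / 4 * lam)))) := by ring
      _ ≤ _ := by gcongr
  have hsz2 : (T2.card : ℝ) ≤ K2 * (sq * (N : ℝ) ^ (ε * lam)) := by
    rw [hK2]
    refine le_trans ?_ (hgen C2 (by linarith))
    refine h2.trans ?_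
    rw [mul_assoc C2]
    gcongr
  have hsz3 : (T3.card : ℝ) ≤ K3 * (sq * (N : ℝ) ^ (ε * lam)) := by
    rw [hK3]
    refine le_trans ?_ (hgen C3 (by linarith))
    refine h3.trans ?_
    gcongr
  have hcard' : (T.card : ℝ) ≤ (T1.card : ℝ) + T2.card + T3.card := by exact_mod_cast hcard
  have h5 : (0 : ℝ) ≤ sq * (N : ℝ) ^ (ε * lam) := by positivity
  have h6 := mul_nonneg (show (0 : ℝ) ≤ (2 * (N1 : ℝ) + 1) ^ 3 by positivity) h5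
  have h7 : ((2 * (N1 : ℝ) + 1) ^ 3 + (K1 + K2 + K3)) * (sq * (N : ℝ) ^ (ε * lam)) =
      (2 * (N1 : ℝ) + 1) ^ 3 * (sq * (N : ℝ) ^ (ε * lam)) + K1 * (sq * (N : ℝ) ^ (ε * lam)) +
        K2 * (sq * (N : ℝ) ^ (ε * lam)) + K3 * (sq * (N : ℝ) ^ (ε * lam)) := by ring
  rw [h7]
  linarith

end Pool.Agent.Helper24.TV
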