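import Pool.Agent.Helper24.TV.PL
import Pool.Agent.Helper24.TU.RkR

/-!
TV-03 (MP_464c42_nt). The number of integers of small radical, small `radM`, in one residue class modulo `d ^ M2`.
-/

set_option autoImplicit false

open Pool.Agent.Helper87.Camp Pool.Agent.Helper10 Pool.Agent.Helper91.CPX

namespace Pool.Agent.Helper24.TV

open Pool.Agent.Helper24.TU

theorem classR (M H : ℕ) (hM : 1 ≤ M) (κ ε2 : ℝ) (hκ : 0 < κ) (hε2 : 0 < ε2) :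
    ∃ M2 : ℕ, 1 ≤ M2 ∧ ∀ m : ℕ, M ≤ H * m → ∀ S : Finset ℕ, ∀ δ : ℝ, 0 < δ → ∃ C : ℝ, 1 ≤ C ∧
      ∀ N X W D : ℕ, 1 ≤ N → 2 ≤ X → W ≤ X → 1 ≤ D → X ≤ W ^ H → N ≤ W ^ (H * m) →
      ∀ d : ℕ, Squarefree d → d ≤ X → (X : ℝ) ^ κ ≤ (d : ℝ) → (∀ p ∈ d.primeFactors, p ^ M2 ≤ X) →
      ∀ r : ℤ, ∀ F : Finset ℤ,
      (∀ a ∈ F, a ∈ Rset S X N ∧ radM S M W a ≤ D ∧ (∀ p ∈ d.primeFactors, ¬ (p : ℤ) ∣ a) ∧
        (d : ℤ) ^ M2 ∣ a - r) →
      (F.card : ℝ) ≤ C * (D : ℝ) ^ 2 * ((X : ℝ) ^ ε2 * (N : ℝ) ^ δ) := by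
  classical
  obtain ⟨M2, hM2, hPL⟩ := PL (M + H) H κ ε2 hκ hε2
  refine ⟨M2, hM2, ?_⟩
  intro m hMm S δ hδ
  obtain ⟨CR, hCR, hR⟩ := hPL m
  obtain ⟨Cs, hCs, h2⟩ := sunit_count S (δ / 2) (by positivity)
  obtain ⟨Cv, hCv, h3⟩ := small_rad (δ / 2) (by positivity)
  have hHm : (1 : ℝ) ≤ ((H * m : ℕ) : ℝ) := by
    exact_mod_cast (hM.trans hMm : 1 ≤ H * m)
  have hHm' : (1 : ℝ) ≤ ((H * m : ℕ) : ℝ) ^ (M + H) := one_le_pow₀ hHm
  obtain ⟨B, hB⟩ : ∃ B : ℝ, B = CR * (2 * (Cs * (Cv * ((H * m : ℕ) : ℝ) ^ (M + H)))) := ⟨_, rfl⟩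
  have hB1 : 1 ≤ B := by
    have e1 : (1 : ℝ) ≤ Cv * ((H * m : ℕ) : ℝ) ^ (M + H) :=
      one_le_mul_of_one_le_of_one_le hCv hHm'
    have e2 : (1 : ℝ) ≤ Cs * (Cv * ((H * m : ℕ) : ℝ) ^ (M + H)) :=
      one_le_mul_of_one_le_of_one_le hCs e1
    have e3 : (1 : ℝ) ≤ 2 * (Cs * (Cv * ((H * m : ℕ) : ℝ) ^ (M + H))) := by linarith
    rw [hB]
    exact one_le_mul_of_one_le_of_one_le hCR e3
  refine ⟨B, hB1, ?_⟩
  intro N X W D hN hX hWX hD hXW hW d hsq hdX hXd hp r F hF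
  have hdec : ∀ a : ℤ, ∃ (s v : ℕ) (x e : Fin (M + H) → ℕ), a ∈ Rset S X N →
      (0 < s ∧ 0 < v ∧ s * v ≤ N ∧
      (∀ p : ℕ, p.Prime → p ∣ s → p ∈ S) ∧
      v.primeFactors = a.natAbs.primeFactors.filter (fun p => p ∉ S ∧ p ≤ W ∧ p ^ M ∣ a.natAbs) ∧
      (∀ i, 1 ≤ x i ∧ x i ≤ X) ∧ (∀ i, 1 ≤ e i ∧ e i ≤ H * m) ∧
      a.natAbs = s * v * ∏ i, x i ^ e i) := by
    intro a
    by_cases ha : a ∈ Rset S X N
    · have ha' := mem_Rset.1 ha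
      obtain ⟨s, v, x, e, h⟩ := decR S M H m X W N hM hMm (by omega) hXW hW a.natAbs
        (Int.natAbs_pos.2 ha'.1) ha'.2.1 (by
          have h3 := ha'.2.2
          unfold radS at h3 ⊢
          rw [Int.natAbs_natCast]
          exact h3)
      exact ⟨s, v, x, e, fun _ => h⟩
    · exact ⟨0, 0, 0, 0, fun h => absurd h ha⟩
  choose s v x e h using hdec
  let dat : ℤ → ℤ × ℕ × ℕ × (Fin (M + H) → ℕ) := fun a => (a.sign, s a, v a, e a)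
  let As : Finset ℕ := (Finset.Icc 1 N).filter (fun s => ∀ p : ℕ, p.Prime → p ∣ s → p ∈ S)
  let Av : Finset ℕ := (Finset.Icc 1 N).filter (fun v => ∏ p ∈ v.primeFactors, p ≤ D)
  let Bx : Finset (ℤ × ℕ × ℕ × (Fin (M + H) → ℕ)) :=
    ({-1, 1} : Finset ℤ) ×ˢ As ×ˢ Av ×ˢ Fintype.piFinset (fun _ : Fin (M + H) => Finset.Icc 1 (H * m))
  have hAs : (As.card : ℝ) ≤ Cs * (N : ℝ) ^ (δ / 2) := by
    apply h2 N hN
    intro v hv
    have := Finset.mem_filter.1 hv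
    exact ⟨(Finset.mem_Icc.1 this.1).1, (Finset.mem_Icc.1 this.1).2, this.2⟩
  have hAv : (Av.card : ℝ) ≤ Cv * (D : ℝ) ^ 2 * (N : ℝ) ^ (δ / 2) := by
    apply h3 D hD N hN
    intro v hv
    have := Finset.mem_filter.1 hv
    exact ⟨(Finset.mem_Icc.1 this.1).1, (Finset.mem_Icc.1 this.1).2, this.2⟩
  have hBx : (Bx.card : ℝ) ≤ 2 * ((Cs * (N : ℝ) ^ (δ / 2)) * ((Cv * (D : ℝ) ^ 2 * (N : ℝ) ^ (δ / 2)) *
      ((H * m : ℕ) : ℝ) ^ (M + H))) := by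
    have h1 : Bx.card = 2 * (As.card * (Av.card * (H * m) ^ (M + H))) := by
      simp only [Bx, Finset.card_product, Fintype.card_piFinset]
      simp
    rw [h1]
    push_cast
    have := hAs
    have := hAv
    gcongr
  have hdat : ∀ a : ℤ, a ∈ Rset S X N → radM S M W a ≤ D → dat a ∈ Bx := by
    intro a ha hr
    obtain ⟨h1, h2, h3, h4, h5, h6, h7, h8⟩ := h a ha
    have ha' := mem_Rset.1 ha
    simp only [Bx, dat, Finset.mem_product]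
    refine ⟨?_, ?_, ?_, ?_⟩
    · rcases lt_or_gt_of_ne ha'.1 with h9 | h9
      · rw [Int.sign_eq_neg_one_of_neg h9]; simp
      · rw [Int.sign_eq_one_of_pos h9]; simp
    · refine Finset.mem_filter.2 ⟨Finset.mem_Icc.2 ⟨h1, ?_⟩, h4⟩
      exact (Nat.le_mul_of_pos_right _ h2).trans h3
    · refine Finset.mem_filter.2 ⟨Finset.mem_Icc.2 ⟨h2, ?_⟩, ?_⟩
      · exact (Nat.le_mul_of_pos_left _ h1).trans h3
      · rw [h5]; exact hr
    · rw [Fintype.mem_piFinset]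
      intro i
      exact Finset.mem_Icc.2 (h7 i)
  have hform : ∀ a : ℤ, a ∈ Rset S X N →
      a = (a.sign * ((s a : ℤ) * (v a : ℤ))) * ∏ i, (x a i : ℤ) ^ e a i := by
    intro a ha
    obtain ⟨h1, h2, h3, h4, h5, h6, h7, h8⟩ := h a ha
    have h9 : ((a.natAbs : ℕ) : ℤ) = (s a : ℤ) * (v a : ℤ) * ∏ i, (x a i : ℤ) ^ e a i := by
      rw [h8]; push_cast; rfl
    have h10 : a = a.sign * ((a.natAbs : ℕ) : ℤ) := (Int.sign_mul_natAbs a).symm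
    rw [mul_assoc, ← h9]
    exact h10
  have hXm : ∀ t : ℕ, t ≤ N → (t : ℤ) ≤ (X : ℤ) ^ (H * m) := by
    intro t ht
    have h1 : t ≤ X ^ (H * m) := (ht.trans hW).trans (Nat.pow_le_pow_left hWX _)
    exact_mod_cast h1
  have habs : ∀ a : ℤ, a ∈ Rset S X N →
      |a.sign * ((s a : ℤ) * (v a : ℤ))| ≤ (X : ℤ) ^ (H * m) := by
    intro a ha
    obtain ⟨h1, h2, h3, h4, h5, h6, h7, h8⟩ := h a ha
    have ha' := mem_Rset.1 ha
    have h9 : |a.sign| = 1 := by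
      rcases lt_or_gt_of_ne ha'.1 with h9 | h9
      · rw [Int.sign_eq_neg_one_of_neg h9]; rfl
      · rw [Int.sign_eq_one_of_pos h9]; rfl
    rw [abs_mul, h9, one_mul, abs_of_nonneg (by positivity)]
    have := hXm _ h3
    push_cast at this
    exact this
  have hfib : ∀ c ∈ F.image dat, (F.filter (fun a => dat a = c)).card ≤ ⌊CR * (X : ℝ) ^ ε2⌋₊ := by
    intro c hc
    obtain ⟨b, hb, rfl⟩ := Finset.mem_image.1 hc
    obtain ⟨hb1, hb2, hb3, hb4⟩ := hF b hb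
    apply Nat.le_floor
    have h1 := hR X hX d hsq hdX hXd hp (b.sign * ((s b : ℤ) * (v b : ℤ))) r (habs b hb1) (e b)
      (fun i => ((h b hb1).2.2.2.2.2.2.1 i).2)
      ((F.filter (fun a => dat a = dat b)).image (fun a i => (x a i : ℤ))) (by
        intro w hw
        obtain ⟨a, ha, rfl⟩ := Finset.mem_image.1 hw
        obtain ⟨haF, hda⟩ := Finset.mem_filter.1 ha
        obtain ⟨ha1, ha2, ha3, ha4⟩ := hF a haF
        simp only [dat, Prod.mk.injEq] at hda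
        obtain ⟨q1, q2, q3, q4⟩ := hda
        have e1 : b.sign * ((s b : ℤ) * (v b : ℤ)) * ∏ i, (x a i : ℤ) ^ e b i = a := by
          rw [← q1, ← q2, ← q3, ← q4]
          exact (hform a ha1).symm
        refine ⟨fun i => ?_, ?_, ?_⟩
        · have := (h a ha1).2.2.2.2.2.1 i
          show 1 ≤ (x a i : ℤ) ∧ (x a i : ℤ) ≤ (X : ℤ)
          exact_mod_cast this
        · intro p hpp
          rw [e1]
          exact ha3 p hpp
        · rw [e1]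
          exact ha4)
    refine le_trans ?_ h1
    rw [Finset.image_image]
    have h2 : ((F.filter (fun a => dat a = dat b)).image
        ((fun z : Fin (M + H) → ℤ => ∏ i, z i ^ e b i) ∘ (fun a i => (x a i : ℤ)))).card =
        (F.filter (fun a => dat a = dat b)).card := by
      apply Finset.card_image_of_injOn
      intro a ha a' ha' hab
      obtain ⟨haF, hda⟩ := Finset.mem_filter.1 (Finset.mem_coe.1 ha)
      obtain ⟨haF', hda'⟩ := Finset.mem_filter.1 (Finset.mem_coe.1 ha')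
      simp only [dat, Prod.mk.injEq] at hda hda'
      obtain ⟨q1, q2, q3, q4⟩ := hda
      obtain ⟨q1', q2', q3', q4'⟩ := hda'
      have hab' : (∏ i, (x a i : ℤ) ^ e b i) = ∏ i, (x a' i : ℤ) ^ e b i := hab
      rw [hform a (hF a haF).1, hform a' (hF a' haF').1, q1, q2, q3, q4, q1', q2', q3', q4', hab']
    rw [h2]
  have hcount := Finset.card_le_mul_card_image F _ hfib
  have himg : (F.image dat).card ≤ Bx.card := by
    apply Finset.card_le_card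
    intro c hc
    obtain ⟨a, ha, rfl⟩ := Finset.mem_image.1 hc
    obtain ⟨ha1, ha2, ha3, ha4⟩ := hF a ha
    exact hdat a ha1 ha2
  have hC0 : 0 ≤ CR * (X : ℝ) ^ ε2 :=
    mul_nonneg (by linarith) (Real.rpow_nonneg (Nat.cast_nonneg _) _)
  have hNpos : (0 : ℝ) < N := by exact_mod_cast hN
  have q3 : (N : ℝ) ^ (δ / 2) * (N : ℝ) ^ (δ / 2) = (N : ℝ) ^ δ := by
    rw [← Real.rpow_add hNpos]
    congr 1
    ring
  calc (F.card : ℝ) ≤ ((⌊CR * (X : ℝ) ^ ε2⌋₊ * Bx.card : ℕ) : ℝ) := by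
        exact_mod_cast hcount.trans (Nat.mul_le_mul_left _ himg)
    _ = (⌊CR * (X : ℝ) ^ ε2⌋₊ : ℝ) * (Bx.card : ℝ) := by push_cast; ring
    _ ≤ (CR * (X : ℝ) ^ ε2) * (2 * ((Cs * (N : ℝ) ^ (δ / 2)) * ((Cv * (D : ℝ) ^ 2 * (N : ℝ) ^ (δ / 2)) *
          ((H * m : ℕ) : ℝ) ^ (M + H)))) := by
        gcongr
        exact Nat.floor_le hC0
    _ = CR * (2 * (Cs * (Cv * ((H * m : ℕ) : ℝ) ^ (M + H)))) * (D : ℝ) ^ 2 *
          ((X : ℝ) ^ ε2 * ((N : ℝ) ^ (δ / 2) * (N : ℝ) ^ (δ / 2))) := by ring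
    _ = B * (D : ℝ) ^ 2 * ((X : ℝ) ^ ε2 * (N : ℝ) ^ δ) := by rw [q3, hB]

end Pool.Agent.Helper24.TV
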