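import Pool.Agent.Helper24.TV.Trip
import Pool.Agent.Helper91.CPX.Collision

/-!
TV-09 (MP_464c42_nt). `r` binary linear forms with a product of small radical.
-/

set_option autoImplicit false

open Pool.Agent.Helper87.Camp Pool.Agent.Helper10 Pool.Agent.Helper91.CPX

namespace Pool.Agent.Helper24.TV

open Pool.Agent.Helper24.TU

private lemma mn_geom (r : ℝ) (hr : 1 < r) (m : ℕ) :
    ∑ k ∈ Finset.range (m + 1), r ^ (k + 1) ≤ r ^ 2 / (r - 1) * r ^ m := by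
  have h0 : 0 < r - 1 := by linarith
  rw [div_mul_eq_mul_div, le_div_iff₀ h0]
  induction m with
  | zero =>
    rw [Finset.sum_range_one]
    have h1 : r ^ (0 + 1) * (r - 1) = r ^ 2 * r ^ 0 - r := by ring
    linarith
  | succ m ih =>
    rw [Finset.sum_range_succ, add_mul]
    have h1 : r ^ (m + 1 + 1) * (r - 1) = r ^ 2 * r ^ (m + 1) - r ^ 2 * r ^ m := by ring
    linarith

private lemma radS_le_natAbs (S : Finset ℕ) (a : ℤ) (ha : a ≠ 0) : radS S a ≤ a.natAbs := by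
  apply Nat.le_of_dvd (Int.natAbs_pos.2 ha)
  unfold radS
  refine dvd_trans (Finset.prod_dvd_prod_of_subset _ _ (fun p => p) (Finset.filter_subset _ _)) ?_
  exact Nat.prod_primeFactors_dvd _

/-- The product of the radicals of the values is at most the radical of their product. -/
theorem rad_prod {r : ℕ} (S : Finset ℕ) (u v : Fin r → ℤ) (hD : ∀ i j, i ≠ j → dd u v i j ≠ 0)
    (x : ℤ × ℤ) (hx : IsCoprime x.1 x.2) (h0 : ∏ i, lv u v i x ≠ 0) :
    ∏ i, radS (pS S u v) (lv u v i x) ≤ radS S (∏ i, lv u v i x) := by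
  classical
  have hSS : S ⊆ pS S u v := Finset.subset_union_left
  unfold radS
  rw [← Finset.prod_biUnion]
  · refine Finset.prod_le_prod_of_subset_of_one_le' ?_ ?_
    · intro p hp
      rw [Finset.mem_biUnion] at hp
      obtain ⟨i, -, hp⟩ := hp
      rw [Finset.mem_filter, Nat.mem_primeFactors] at hp ⊢
      obtain ⟨⟨hpp, hpd, -⟩, hpS⟩ := hp
      refine ⟨⟨hpp, ?_, Int.natAbs_ne_zero.2 h0⟩, fun h => hpS (hSS h)⟩
      have h1 : (p : ℤ) ∣ lv u v i x := Int.natCast_dvd.2 hpd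
      exact Int.natCast_dvd.1 (h1.trans (Finset.dvd_prod_of_mem _ (Finset.mem_univ i)))
    · intro p hp _
      exact (Nat.prime_of_mem_primeFactors (Finset.mem_filter.1 hp).1).one_lt.le
  · intro i _ j _ hij
    rw [Function.onFun, Finset.disjoint_left]
    intro p hp hp'
    rw [Finset.mem_filter, Nat.mem_primeFactors] at hp hp'
    exact lv_cop S u v hD x hx p hp.1.1 hp.2 i j hij (Int.natCast_dvd.2 hp.1.2.1)
      (Int.natCast_dvd.2 hp'.1.2.1)

/-- The two smallest of `r` positive integers. -/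
theorem two_min {r : ℕ} (hr : 3 ≤ r) (R : Fin r → ℕ) (hR : ∀ i, 1 ≤ R i) :
    ∃ i j l : Fin r, i ≠ j ∧ i ≠ l ∧ j ≠ l ∧ R i ≤ R j ∧ (R i * R j) ^ r ≤ (∏ h, R h) ^ 2 := by
  classical
  have hne : (Finset.univ : Finset (Fin r)).Nonempty := ⟨⟨0, by omega⟩, Finset.mem_univ _⟩
  obtain ⟨i, -, hi⟩ := Finset.exists_min_image Finset.univ R hne
  have hne2 : ((Finset.univ : Finset (Fin r)).erase i).Nonempty := by
    rw [← Finset.card_pos, Finset.card_erase_of_mem (Finset.mem_univ i), Finset.card_univ,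
      Fintype.card_fin]
    omega
  obtain ⟨j, hj, hjm⟩ := Finset.exists_min_image _ R hne2
  have hji : j ≠ i := (Finset.mem_erase.1 hj).1
  have hne3 : (((Finset.univ : Finset (Fin r)).erase i).erase j).Nonempty := by
    rw [← Finset.card_pos, Finset.card_erase_of_mem hj, Finset.card_erase_of_mem (Finset.mem_univ i),
      Finset.card_univ, Fintype.card_fin]
    omega
  obtain ⟨l, hl⟩ := hne3
  have hlj : l ≠ j := (Finset.mem_erase.1 hl).1
  have hli : l ≠ i := (Finset.mem_erase.1 (Finset.mem_erase.1 hl).2).1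
  refine ⟨i, j, l, Ne.symm hji, Ne.symm hli, Ne.symm hlj, hi j (Finset.mem_univ j), ?_⟩
  have hRij : R i ≤ R j := hi j (Finset.mem_univ j)
  have h1 : R i * R j ^ (r - 1) ≤ ∏ h, R h := by
    rw [← Finset.mul_prod_erase Finset.univ R (Finset.mem_univ i)]
    refine Nat.mul_le_mul_left _ ?_
    have h2 : ((Finset.univ : Finset (Fin r)).erase i).card = r - 1 := by
      rw [Finset.card_erase_of_mem (Finset.mem_univ i), Finset.card_univ, Fintype.card_fin]
    rw [← h2, ← Finset.prod_const]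
    exact Finset.prod_le_prod' fun h hh => hjm h hh
  obtain ⟨s, rfl⟩ : ∃ s, r = s + 2 := ⟨r - 2, by omega⟩
  calc (R i * R j) ^ (s + 2) = (R i * R j) ^ 2 * (R i * R j) ^ s := by ring
    _ ≤ (R i * R j) ^ 2 * (R j * R j) ^ s :=
        Nat.mul_le_mul_left _ (Nat.pow_le_pow_left (Nat.mul_le_mul_right _ hRij) _)
    _ = (R i * R j ^ (s + 2 - 1)) ^ 2 := by
        have : s + 2 - 1 = s + 1 := by omega
        rw [this]
        ring
    _ ≤ (∏ h, R h) ^ 2 := Nat.pow_le_pow_left h1 2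

/-- The count in a dyadic range. -/
theorem dyad (r : ℕ) (hr : 3 ≤ r) (ε : ℝ) (hε : 0 < ε) :
    ∃ lam0 : ℝ, 0 < lam0 ∧ ∀ lam : ℝ, 0 < lam → lam ≤ lam0 → ∀ (S : Finset ℕ)
      (u v : Fin r → ℤ), (∀ i j, i ≠ j → dd u v i j ≠ 0) → ∃ (C : ℝ) (K0 : ℕ), 0 ≤ C ∧ 1 ≤ K0 ∧
      ∀ H : ℕ, 1 ≤ H → ∀ T : Finset (ℤ × ℤ), (∀ x ∈ T, IsCoprime x.1 x.2 ∧ hgt x ≤ H ∧
        H ≤ 2 * hgt x ∧ ∏ i, lv u v i x ≠ 0 ∧
        (radS S (∏ i, lv u v i x) : ℝ) ≤ (hgt x : ℝ) ^ lam) →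
      (T.card : ℝ) ≤ C * ((K0 * H : ℕ) : ℝ) ^ ((1 / (r : ℝ) + ε) * lam) := by
  classical
  obtain ⟨lam0, hlam0, htrip⟩ := trip (ε / 2) (by positivity)
  refine ⟨lam0, hlam0, fun lam hlam hle S u v hD => ?_⟩
  obtain ⟨K, hK1, hK2⟩ : ∃ K : ℕ, 1 ≤ K ∧ 2 ≤ (K : ℝ) ^ lam := by
    refine ⟨⌈(2 : ℝ) ^ (1 / lam)⌉₊, Nat.one_le_ceil_iff.2 (by positivity), ?_⟩
    have h1 : (2 : ℝ) ^ (1 / lam) ≤ (⌈(2 : ℝ) ^ (1 / lam)⌉₊ : ℝ) := Nat.le_ceil _
    have h2 := Real.rpow_le_rpow (by positivity) h1 hlam.le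
    rwa [← Real.rpow_mul (by norm_num), one_div_mul_cancel hlam.ne', Real.rpow_one] at h2
  obtain ⟨S', hS'⟩ : ∃ S', S' = pS S u v := ⟨_, rfl⟩
  obtain ⟨K0, hK0⟩ : ∃ K0, K0 = K * (cD u v * cA u v) := ⟨_, rfl⟩
  have hcA : 1 ≤ cA u v := by unfold cA; omega
  have hcD : 1 ≤ cD u v := by unfold cD; omega
  have hKK0 : K ≤ K0 := by
    rw [hK0]
    exact Nat.le_mul_of_pos_right _ (Nat.mul_pos (by omega) (by omega))
  have hcAK0 : cA u v ≤ K0 := by
    rw [hK0]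
    calc cA u v = 1 * (1 * cA u v) := by ring
      _ ≤ K * (cD u v * cA u v) := Nat.mul_le_mul hK1 (Nat.mul_le_mul_right _ hcD)
  have hK01 : 1 ≤ K0 := hK1.trans hKK0
  have hall : ∀ t : Fin r × Fin r × Fin r, ∃ C : ℝ, 1 ≤ C ∧ (t.1 ≠ t.2.1 → t.1 ≠ t.2.2 →
      t.2.1 ≠ t.2.2 → ∀ H Y0 Y1 : ℕ, 1 ≤ H → 1 ≤ Y0 → Y0 ≤ Y1 →
      (Y1 : ℝ) ≤ ((K0 * H : ℕ) : ℝ) ^ lam →
      ∀ T : Finset (ℤ × ℤ), (∀ x ∈ T, IsCoprime x.1 x.2 ∧ hgt x ≤ H ∧ H ≤ 2 * hgt x ∧
        lv u v t.1 x ≠ 0 ∧ lv u v t.2.1 x ≠ 0 ∧ lv u v t.2.2 x ≠ 0 ∧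
        radS S' (lv u v t.1 x) ≤ Y0 ∧ radS S' (lv u v t.2.1 x) ≤ Y1 ∧
        (radS S' (lv u v t.2.2 x) : ℝ) ≤ (H : ℝ) ^ lam) →
      (T.card : ℝ) ≤ C * (Real.sqrt ((Y0 : ℝ) * Y1) *
        ((K0 * H : ℕ) : ℝ) ^ (ε / 2 * lam))) := by
    intro t
    by_cases h : t.1 ≠ t.2.1 ∧ t.1 ≠ t.2.2 ∧ t.2.1 ≠ t.2.2
    · obtain ⟨C, hC1, hC⟩ := htrip lam hlam hle r S' u v hD K hK1 t.1 t.2.1 t.2.2 h.1 h.2.1 h.2.2
      refine ⟨C, hC1, fun _ _ _ => ?_⟩
      rw [hK0]
      exact hC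
    · exact ⟨1, le_rfl, fun h1 h2 h3 => absurd ⟨h1, h2, h3⟩ h⟩
  choose Cf hCf1 hCf using hall
  obtain ⟨Cm, hCm⟩ : ∃ Cm : ℝ, Cm = ∑ t, Cf t := ⟨_, rfl⟩
  have hCm0 : 0 ≤ Cm := by
    rw [hCm]
    exact Finset.sum_nonneg fun t _ => by linarith [hCf1 t]
  obtain ⟨C4, hC4, hlog⟩ := clog_pow_le 2 (by norm_num) (ε / 2 * lam) (by positivity)
  refine ⟨C4 * (Cm * 2), K0, by positivity, hK01, ?_⟩
  intro H hH T hT
  obtain ⟨N, hN⟩ : ∃ N, N = K0 * H := ⟨_, rfl⟩
  rw [← hN]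
  have hN1 : 1 ≤ N := by rw [hN]; exact Nat.mul_pos (by omega) (by omega)
  have hNR : (1 : ℝ) ≤ N := by exact_mod_cast hN1
  have hN0 : (0 : ℝ) < N := by linarith
  have hHR : (1 : ℝ) ≤ H := by exact_mod_cast hH
  have hr0 : (0 : ℝ) < r := by exact_mod_cast (by omega : 0 < r)
  have hHN : (H : ℝ) ≤ N := by
    have : H ≤ N := by
      rw [hN]
      exact Nat.le_mul_of_pos_left _ (by omega)
    exact_mod_cast this
  have h2H : 2 * (H : ℝ) ^ lam ≤ (N : ℝ) ^ lam := by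
    have h1 : ((K * H : ℕ) : ℝ) ≤ N := by
      rw [hN]
      exact_mod_cast Nat.mul_le_mul_right _ hKK0
    refine le_trans ?_ (Real.rpow_le_rpow (Nat.cast_nonneg _) h1 hlam.le)
    rw [Nat.cast_mul, Real.mul_rpow (Nat.cast_nonneg _) (Nat.cast_nonneg _)]
    exact mul_le_mul_of_nonneg_right hK2 (by positivity)
  -- data of a point
  have hdata : ∀ x : ℤ × ℤ, ∃ t : Fin r × Fin r × Fin r, x ∈ T → (t.1 ≠ t.2.1 ∧ t.1 ≠ t.2.2 ∧
      t.2.1 ≠ t.2.2 ∧ radS S' (lv u v t.1 x) ≤ radS S' (lv u v t.2.1 x) ∧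
      (radS S' (lv u v t.1 x) * radS S' (lv u v t.2.1 x)) ^ r ≤
        (∏ h, radS S' (lv u v h x)) ^ 2) := by
    intro x
    obtain ⟨i, j, l, h1, h2, h3, h4, h5⟩ := two_min hr (fun h => radS S' (lv u v h x))
      (fun h => radS_pos S' _)
    exact ⟨(i, j, l), fun _ => ⟨h1, h2, h3, h4, h5⟩⟩
  choose tt htt using hdata
  have hprod : ∀ x ∈ T, ((∏ h, radS S' (lv u v h x) : ℕ) : ℝ) ≤ (H : ℝ) ^ lam := by
    intro x hx
    obtain ⟨h1, h2, h3, h4, h5⟩ := hT x hx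
    have h6 : ((∏ h, radS S' (lv u v h x) : ℕ) : ℝ) ≤ (radS S (∏ i, lv u v i x) : ℝ) := by
      rw [hS']
      exact_mod_cast rad_prod S u v hD x h1 h4
    refine h6.trans (h5.trans ?_)
    exact Real.rpow_le_rpow (Nat.cast_nonneg _) (by exact_mod_cast h2) hlam.le
  have hRle : ∀ x ∈ T, ∀ h : Fin r, (radS S' (lv u v h x) : ℝ) ≤ (H : ℝ) ^ lam := by
    intro x hx h
    refine le_trans ?_ (hprod x hx)
    have h1 : radS S' (lv u v h x) ≤ ∏ h, radS S' (lv u v h x) :=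
      Finset.single_le_prod' (f := fun h => radS S' (lv u v h x))
        (fun i _ => radS_pos S' _) (Finset.mem_univ h)
    exact_mod_cast h1
  have hne : ∀ x ∈ T, ∀ h : Fin r, lv u v h x ≠ 0 := by
    intro x hx h
    have h1 := (hT x hx).2.2.2.1
    rw [Finset.prod_ne_zero_iff] at h1
    exact h1 h (Finset.mem_univ h)
  have hRN : ∀ x ∈ T, ∀ h : Fin r, radS S' (lv u v h x) ≤ N := by
    intro x hx h
    calc radS S' (lv u v h x) ≤ (lv u v h x).natAbs := radS_le_natAbs _ _ (hne x hx h)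
      _ ≤ cA u v * hgt x := lv_le u v h x
      _ ≤ K0 * H := Nat.mul_le_mul hcAK0 (hT x hx).2.1
      _ = N := hN.symm
  let f : ℤ × ℤ → (Fin r × Fin r × Fin r) × (ℕ × ℕ) := fun x => (tt x,
    (Nat.clog 2 (radS S' (lv u v (tt x).1 x)), Nat.clog 2 (radS S' (lv u v (tt x).2.1 x))))
  -- sum over the triples
  have hsum : (T.card : ℝ) ≤ ∑ t : Fin r × Fin r × Fin r,
      ((T.filter (fun x => tt x = t)).card : ℝ) := by
    rw [Finset.card_eq_sum_card_fiberwise (f := tt) (t := Finset.univ)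
      (fun x _ => Finset.mem_coe.2 (Finset.mem_univ _))]
    push_cast
    exact le_rfl
  have hfib : ∀ t : Fin r × Fin r × Fin r, ((T.filter (fun x => tt x = t)).card : ℝ) ≤
      (C4 * (N : ℝ) ^ (ε / 2 * lam)) * (Cf t * (2 * (N : ℝ) ^ (1 / (r : ℝ) * lam) *
        (N : ℝ) ^ (ε / 2 * lam))) := by
    intro t
    have hK : (0 : ℝ) ≤ Cf t * (2 * (N : ℝ) ^ (1 / (r : ℝ) * lam) * (N : ℝ) ^ (ε / 2 * lam)) := by
      have := hCf1 t
      positivity
    have h1 : ((T.filter (fun x => tt x = t)).card : ℝ) ≤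
        (Cf t * (2 * (N : ℝ) ^ (1 / (r : ℝ) * lam) * (N : ℝ) ^ (ε / 2 * lam))) *
          ((Finset.range (Nat.clog 2 N + 1) ×ˢ Finset.range (Nat.clog 2 N + 1)).card : ℝ) := by
      apply card_le_real (fun x => (Nat.clog 2 (radS S' (lv u v t.1 x)),
        Nat.clog 2 (radS S' (lv u v t.2.1 x))))
      · intro x hx
        rw [Finset.mem_filter] at hx
        rw [Finset.mem_product, Finset.mem_range, Finset.mem_range]
        exact ⟨Nat.lt_succ_of_le (Nat.clog_mono_right 2 (hRN x hx.1 _)),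
          Nat.lt_succ_of_le (Nat.clog_mono_right 2 (hRN x hx.1 _))⟩
      · rintro ⟨a, b⟩ _
        rcases ((T.filter (fun x => tt x = t)).filter
          (fun x => (Nat.clog 2 (radS S' (lv u v t.1 x)),
            Nat.clog 2 (radS S' (lv u v t.2.1 x))) = (a, b))).eq_empty_or_nonempty with
          h0 | ⟨x0, hx0⟩
        · rw [h0, Finset.card_empty, Nat.cast_zero]
          exact hK
        · have hkey : ∀ x ∈ (T.filter (fun x => tt x = t)).filter
              (fun x => (Nat.clog 2 (radS S' (lv u v t.1 x)),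
                Nat.clog 2 (radS S' (lv u v t.2.1 x))) = (a, b)), x ∈ T ∧ tt x = t ∧
              Nat.clog 2 (radS S' (lv u v t.1 x)) = a ∧
              Nat.clog 2 (radS S' (lv u v t.2.1 x)) = b := by
            intro x hx
            have m1 := Finset.mem_filter.1 hx
            have m2 := Finset.mem_filter.1 m1.1
            have m3 := Prod.mk.inj m1.2
            exact ⟨m2.1, m2.2, m3.1, m3.2⟩
          obtain ⟨g1, g2, g3, g4⟩ := hkey x0 hx0
          obtain ⟨d1, d2, d3, d4, d5⟩ := htt x0 g1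
          rw [g2] at d1 d2 d3 d4 d5
          have hab : a ≤ b := by
            rw [← g3, ← g4]
            exact Nat.clog_mono_right 2 d4
          have hb2 : (2 ^ b : ℕ) ≤ 2 * radS S' (lv u v t.2.1 x0) := by
            rw [← g4]
            exact two_pow_clog_le _ (radS_pos S' _)
          have ha2 : (2 ^ a : ℕ) ≤ 2 * radS S' (lv u v t.1 x0) := by
            rw [← g3]
            exact two_pow_clog_le _ (radS_pos S' _)
          have hYb : ((2 ^ b : ℕ) : ℝ) ≤ (N : ℝ) ^ lam := by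
            have h2 : ((2 ^ b : ℕ) : ℝ) ≤ 2 * (radS S' (lv u v t.2.1 x0) : ℝ) := by
              exact_mod_cast hb2
            have h3 := hRle x0 g1 t.2.1
            linarith
          have h5 := hCf t d1 d2 d3 H (2 ^ a) (2 ^ b) hH Nat.one_le_two_pow
            (Nat.pow_le_pow_right (by norm_num) hab) (by rw [← hN]; exact hYb) _ (by
              intro x hx
              obtain ⟨e1, e2, e3, e4⟩ := hkey x hx
              obtain ⟨c1, c2, c3, -, -⟩ := hT x e1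
              refine ⟨c1, c2, c3, hne x e1 _, hne x e1 _, hne x e1 _, ?_, ?_, hRle x e1 _⟩
              · rw [← e3]
                exact Nat.le_pow_clog (by norm_num) _
              · rw [← e4]
                exact Nat.le_pow_clog (by norm_num) _)
          refine h5.trans ?_
          rw [← hN]
          refine mul_le_mul_of_nonneg_left ?_ (by linarith [hCf1 t])
          refine mul_le_mul_of_nonneg_right ?_ (by positivity)
          -- the size of the square root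
          have hRR : (((radS S' (lv u v t.1 x0)) * (radS S' (lv u v t.2.1 x0)) : ℕ) : ℝ) ≤
              ((N : ℝ) ^ (1 / (r : ℝ) * lam)) ^ 2 := by
            have k1 : ((((radS S' (lv u v t.1 x0)) * (radS S' (lv u v t.2.1 x0)) : ℕ) : ℝ)) ^ r ≤
                (((N : ℝ) ^ (1 / (r : ℝ) * lam)) ^ 2) ^ r := by
              have k2 : ((((radS S' (lv u v t.1 x0)) * (radS S' (lv u v t.2.1 x0)) : ℕ) : ℝ)) ^ r ≤
                  (((∏ h, radS S' (lv u v h x0) : ℕ) : ℝ)) ^ 2 := by exact_mod_cast d5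
              have k3 := hprod x0 g1
              have k4 : (((∏ h, radS S' (lv u v h x0) : ℕ) : ℝ)) ^ 2 ≤ ((N : ℝ) ^ lam) ^ 2 := by
                refine pow_le_pow_left₀ (Nat.cast_nonneg _) ?_ 2
                refine k3.trans ?_
                exact Real.rpow_le_rpow (Nat.cast_nonneg _) hHN hlam.le
              have k5 : ((N : ℝ) ^ (1 / (r : ℝ) * lam)) ^ r = (N : ℝ) ^ lam := by
                rw [← Real.rpow_mul_natCast hN0.le]
                congr 1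
                field_simp
              refine k2.trans (k4.trans (le_of_eq ?_))
              rw [← k5]
              ring
            exact le_of_pow_le_pow_left₀ (by omega) (by positivity) k1
          have hYY : ((2 ^ a : ℕ) : ℝ) * ((2 ^ b : ℕ) : ℝ) ≤ (2 * (N : ℝ) ^ (1 / (r : ℝ) * lam)) ^ 2 := by
            have k1 : ((2 ^ a : ℕ) : ℝ) * ((2 ^ b : ℕ) : ℝ) ≤
                (2 * (radS S' (lv u v t.1 x0) : ℝ)) * (2 * (radS S' (lv u v t.2.1 x0) : ℝ)) := by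
              exact_mod_cast Nat.mul_le_mul ha2 hb2
            push_cast at hRR
            calc ((2 ^ a : ℕ) : ℝ) * ((2 ^ b : ℕ) : ℝ) ≤ _ := k1
              _ = 4 * ((radS S' (lv u v t.1 x0) : ℝ) * (radS S' (lv u v t.2.1 x0) : ℝ)) := by ring
              _ ≤ 4 * ((N : ℝ) ^ (1 / (r : ℝ) * lam)) ^ 2 :=
                  mul_le_mul_of_nonneg_left hRR (by norm_num)
              _ = _ := by ring
          rw [Real.sqrt_le_left (by positivity)]
          exact hYY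
    have h2 : ((Finset.range (Nat.clog 2 N + 1) ×ˢ Finset.range (Nat.clog 2 N + 1)).card : ℝ) ≤
        C4 * (N : ℝ) ^ (ε / 2 * lam) := by
      rw [Finset.card_product, Finset.card_range]
      have h3 := hlog N hN1
      rw [pow_two] at h3
      exact_mod_cast h3
    calc ((T.filter (fun x => tt x = t)).card : ℝ) ≤ _ := h1
      _ ≤ (Cf t * (2 * (N : ℝ) ^ (1 / (r : ℝ) * lam) * (N : ℝ) ^ (ε / 2 * lam))) *
          (C4 * (N : ℝ) ^ (ε / 2 * lam)) := mul_le_mul_of_nonneg_left h2 hK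
      _ = _ := by ring
  have hpow : (N : ℝ) ^ (ε / 2 * lam) * ((N : ℝ) ^ (1 / (r : ℝ) * lam) * (N : ℝ) ^ (ε / 2 * lam)) =
      (N : ℝ) ^ ((1 / (r : ℝ) + ε) * lam) := by
    rw [← Real.rpow_add hN0, ← Real.rpow_add hN0]
    congr 1
    ring
  calc (T.card : ℝ) ≤ ∑ t : Fin r × Fin r × Fin r,
        ((T.filter (fun x => tt x = t)).card : ℝ) := hsum
    _ ≤ ∑ t : Fin r × Fin r × Fin r, (C4 * (N : ℝ) ^ (ε / 2 * lam)) *
        (Cf t * (2 * (N : ℝ) ^ (1 / (r : ℝ) * lam) * (N : ℝ) ^ (ε / 2 * lam))) :=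
        Finset.sum_le_sum fun t _ => hfib t
    _ = C4 * (Cm * 2) * ((N : ℝ) ^ (ε / 2 * lam) * ((N : ℝ) ^ (1 / (r : ℝ) * lam) *
          (N : ℝ) ^ (ε / 2 * lam))) := by
        rw [← Finset.mul_sum, ← Finset.sum_mul, ← hCm]
        ring
    _ = _ := by rw [hpow]

theorem main_r (r : ℕ) (hr : 3 ≤ r) (ε : ℝ) (hε : 0 < ε) :
    ∃ lam0 : ℝ, 0 < lam0 ∧ ∀ lam : ℝ, 0 < lam → lam ≤ lam0 → ∀ (S : Finset ℕ)
      (u v : Fin r → ℤ), (∀ i j, i ≠ j → dd u v i j ≠ 0) → ∃ C : ℝ, ∀ B : ℕ, 1 ≤ B →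
      {x : ℤ × ℤ | IsCoprime x.1 x.2 ∧ ∏ i, lv u v i x ≠ 0 ∧
        (radS S (∏ i, lv u v i x) : ℝ) ≤ (hgt x : ℝ) ^ lam ∧ hgt x ≤ B}.Finite ∧
      ({x : ℤ × ℤ | IsCoprime x.1 x.2 ∧ ∏ i, lv u v i x ≠ 0 ∧
        (radS S (∏ i, lv u v i x) : ℝ) ≤ (hgt x : ℝ) ^ lam ∧ hgt x ≤ B}.ncard : ℝ) ≤
          C * (B : ℝ) ^ ((1 / (r : ℝ) + ε) * lam) := by
  classical
  obtain ⟨lam0, hlam0, hdy⟩ := dyad r hr ε hε
  refine ⟨lam0, hlam0, fun lam hlam hle S u v hD => ?_⟩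
  obtain ⟨C, K0, hC0, hK0, hC⟩ := hdy lam hlam hle S u v hD
  obtain ⟨e, he⟩ : ∃ e : ℝ, e = (1 / (r : ℝ) + ε) * lam := ⟨_, rfl⟩
  have hr0 : (0 : ℝ) < r := by exact_mod_cast (by omega : 0 < r)
  have he0 : 0 < e := by
    rw [he]
    positivity
  have hr1 : 1 < (2 : ℝ) ^ e := Real.one_lt_rpow (by norm_num) he0
  rw [← he] at hC ⊢
  refine ⟨C * (K0 : ℝ) ^ e * (((2 : ℝ) ^ e) ^ 2 / ((2 : ℝ) ^ e - 1)), fun B hB => ?_⟩
  obtain ⟨P, hP⟩ : ∃ P : ℤ × ℤ → Prop, P = fun x =>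
    IsCoprime x.1 x.2 ∧ ∏ i, lv u v i x ≠ 0 ∧
      (radS S (∏ i, lv u v i x) : ℝ) ≤ (hgt x : ℝ) ^ lam ∧ hgt x ≤ B := ⟨_, rfl⟩
  obtain ⟨F, hF⟩ : ∃ F : Finset (ℤ × ℤ), F =
    (Finset.Icc (-(B : ℤ)) B ×ˢ Finset.Icc (-(B : ℤ)) B).filter P := ⟨_, rfl⟩
  have hset : {x : ℤ × ℤ | P x} = (F : Set (ℤ × ℤ)) := by
    ext x
    rw [Set.mem_ofPred_eq, Finset.mem_coe, hF, Finset.mem_filter, Finset.mem_product,
      Finset.mem_Icc, Finset.mem_Icc]
    constructor
    · intro h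
      refine ⟨?_, h⟩
      rw [hP] at h
      have h1 : x.1.natAbs ≤ B := (le_max_left _ _).trans h.2.2.2
      have h2 : x.2.natAbs ≤ B := (le_max_right _ _).trans h.2.2.2
      omega
    · intro h
      exact h.2
  have hgoal : {x : ℤ × ℤ | P x}.Finite ∧ ({x : ℤ × ℤ | P x}.ncard : ℝ) ≤
      C * (K0 : ℝ) ^ e * (((2 : ℝ) ^ e) ^ 2 / ((2 : ℝ) ^ e - 1)) * (B : ℝ) ^ e := by
    rw [hset]
    refine ⟨F.finite_toSet, ?_⟩
    rw [Set.ncard_coe_finset]
    have hfib : ∀ k : ℕ, ((F.filter (fun x => Nat.log 2 (hgt x) = k)).card : ℝ) ≤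
        C * (K0 : ℝ) ^ e * ((2 : ℝ) ^ e) ^ (k + 1) := by
      intro k
      have key := hC (2 ^ (k + 1)) Nat.one_le_two_pow
        (F.filter (fun x => Nat.log 2 (hgt x) = k)) (by
        intro x hx
        rw [Finset.mem_filter, hF, Finset.mem_filter, hP] at hx
        obtain ⟨⟨-, hx1, hx2, hx3, hx4⟩, hxk⟩ := hx
        have hht : hgt x ≠ 0 := by
          intro h0
          have h1 : x.1.natAbs ≤ 0 := (le_max_left _ _).trans (le_of_eq h0)
          have h2 : x.2.natAbs ≤ 0 := (le_max_right _ _).trans (le_of_eq h0)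
          have h3 : x.1 = 0 := by omega
          have h4 : x.2 = 0 := by omega
          rw [h3, h4] at hx1
          exact not_isCoprime_zero_zero hx1
        have hlo : 2 ^ k ≤ hgt x := by
          have := Nat.pow_log_le_self 2 hht
          rwa [hxk] at this
        have hup : hgt x < 2 ^ (k + 1) := by
          have := Nat.lt_pow_succ_log_self (b := 2) (by norm_num) (hgt x)
          rwa [hxk] at this
        refine ⟨hx1, hup.le, ?_, hx2, hx3⟩
        rw [pow_succ]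
        omega)
      refine key.trans (le_of_eq ?_)
      push_cast
      rw [Real.mul_rpow (by positivity) (by positivity), ← Real.rpow_natCast, ← Real.rpow_natCast,
        ← Real.rpow_mul (by norm_num), ← Real.rpow_mul (by norm_num), mul_comm ((k + 1 : ℕ) : ℝ) e]
      ring
    have hmaps : ∀ x ∈ F, Nat.log 2 (hgt x) ∈ Finset.range (Nat.log 2 B + 1) := by
      intro x hx
      rw [hF, Finset.mem_filter, hP] at hx
      rw [Finset.mem_range]
      have := Nat.log_mono_right (b := 2) hx.2.2.2.2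
      omega
    rw [Finset.card_eq_sum_card_fiberwise hmaps]
    push_cast
    calc ∑ k ∈ Finset.range (Nat.log 2 B + 1),
        ((F.filter (fun x => Nat.log 2 (hgt x) = k)).card : ℝ)
        ≤ ∑ k ∈ Finset.range (Nat.log 2 B + 1), C * (K0 : ℝ) ^ e * ((2 : ℝ) ^ e) ^ (k + 1) :=
          Finset.sum_le_sum fun k _ => hfib k
      _ = C * (K0 : ℝ) ^ e * ∑ k ∈ Finset.range (Nat.log 2 B + 1), ((2 : ℝ) ^ e) ^ (k + 1) := by
          rw [Finset.mul_sum]
      _ ≤ C * (K0 : ℝ) ^ e * (((2 : ℝ) ^ e) ^ 2 / ((2 : ℝ) ^ e - 1) *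
            ((2 : ℝ) ^ e) ^ (Nat.log 2 B)) :=
          mul_le_mul_of_nonneg_left (mn_geom _ hr1 _) (by positivity)
      _ ≤ C * (K0 : ℝ) ^ e * (((2 : ℝ) ^ e) ^ 2 / ((2 : ℝ) ^ e - 1) * (B : ℝ) ^ e) := by
          have h1 : ((2 : ℝ) ^ e) ^ (Nat.log 2 B) ≤ (B : ℝ) ^ e := by
            rw [← Real.rpow_natCast, ← Real.rpow_mul (by norm_num), mul_comm,
              Real.rpow_mul (by norm_num), Real.rpow_natCast]
            apply Real.rpow_le_rpow (by positivity) _ he0.le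
            have h2 : 2 ^ Nat.log 2 B ≤ B := Nat.pow_log_le_self 2 (by omega)
            exact_mod_cast h2
          have h2 : 0 ≤ ((2 : ℝ) ^ e) ^ 2 / ((2 : ℝ) ^ e - 1) :=
            div_nonneg (by positivity) (by linarith)
          have h3 : 0 ≤ C * (K0 : ℝ) ^ e := by positivity
          exact mul_le_mul_of_nonneg_left (mul_le_mul_of_nonneg_left h1 h2) h3
      _ = _ := by ring
  rw [hP] at hgoal
  exact hgoal

end Pool.Agent.Helper24.TV
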