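import Pool.Agent.Helper24.TV.PLns

/-!
TV-02 (MP_464c42_nt). The pointwise lemma: the numbers `α ∏ z_v ^ e_v` in one class modulo `d ^ M`, `d` a product of distinct
small primes, `d ≥ X ^ κ`, take at most `C X ^ ε` values.
-/

set_option autoImplicit false

open MvPolynomial

namespace Pool.Agent.Helper24.TV

open Pool.Agent.Helper91.CPX Pool.Agent.Helper85.VA Pool.Agent.Helper93.TS

private theorem pl_card {n : ℕ} (X : ℕ) (T : Finset (Fin n → ℤ))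
    (hT : ∀ z ∈ T, ∀ i, 1 ≤ z i ∧ z i ≤ (X : ℤ)) : T.card ≤ X ^ n := by
  classical
  have hsub : T ⊆ Fintype.piFinset fun _ : Fin n => Finset.Icc (1 : ℤ) X := by
    intro z hz
    rw [Fintype.mem_piFinset]
    intro i
    rw [Finset.mem_Icc]
    exact hT z hz i
  refine (Finset.card_le_card hsub).trans (le_of_eq ?_)
  rw [Fintype.card_piFinset]
  simp

theorem PL (n H : ℕ) (κ ε : ℝ) (hκ : 0 < κ) (hε : 0 < ε) :
    ∃ M : ℕ, 1 ≤ M ∧ ∀ m : ℕ, ∃ C : ℝ, 1 ≤ C ∧ ∀ X : ℕ, 2 ≤ X → ∀ d : ℕ, Squarefree d → d ≤ X →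
      (X : ℝ) ^ κ ≤ (d : ℝ) → (∀ p ∈ d.primeFactors, p ^ M ≤ X) → ∀ α r : ℤ,
      |α| ≤ (X : ℤ) ^ (H * m) → ∀ e : Fin n → ℕ, (∀ i, e i ≤ H * m) → ∀ T : Finset (Fin n → ℤ),
        (∀ z ∈ T, (∀ i, 1 ≤ z i ∧ z i ≤ (X : ℤ)) ∧
          (∀ p ∈ d.primeFactors, ¬ (p : ℤ) ∣ α * ∏ i, z i ^ e i) ∧
          (d : ℤ) ^ M ∣ α * ∏ i, z i ^ e i - r) →
        ((T.image (fun z => ∏ i, z i ^ e i)).card : ℝ) ≤ C * (X : ℝ) ^ ε := by
  classical
  by_contra hcon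
  push Not at hcon
  have hcon' : ∀ ν : ℕ, ∃ m : ℕ, ∀ C : ℝ, 1 ≤ C → ∃ X : ℕ, 2 ≤ X ∧ ∃ d : ℕ, Squarefree d ∧ d ≤ X ∧
      (X : ℝ) ^ κ ≤ (d : ℝ) ∧ (∀ p ∈ d.primeFactors, p ^ (ν + 1) ≤ X) ∧ ∃ α r : ℤ,
      |α| ≤ (X : ℤ) ^ (H * m) ∧ ∃ e : Fin n → ℕ, (∀ i, e i ≤ H * m) ∧ ∃ T : Finset (Fin n → ℤ),
        (∀ z ∈ T, (∀ i, 1 ≤ z i ∧ z i ≤ (X : ℤ)) ∧
          (∀ p ∈ d.primeFactors, ¬ (p : ℤ) ∣ α * ∏ i, z i ^ e i) ∧
          (d : ℤ) ^ (ν + 1) ∣ α * ∏ i, z i ^ e i - r) ∧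
        C * (X : ℝ) ^ ε < ((T.image (fun z => ∏ i, z i ^ e i)).card : ℝ) :=
    fun ν => hcon (ν + 1) (by omega)
  choose m h using hcon'
  let Gr : ℕ → ℕ := fun ν => H * m ν * (n + 1) + ν + 1
  let B : ℕ → ℕ := fun ν => 2 ^ ((Gr ν + ν + 1) ^ 2)
  have h' := fun ν => h ν ((B ν : ℝ) ^ n + 1) (by
    have : (0 : ℝ) ≤ (B ν : ℝ) ^ n := by positivity
    linarith)
  choose X hX2 d hsq hdX hXd hp α r hα e he T hT hcard using h'
  have hX1 : ∀ ν, (1 : ℝ) ≤ (X ν : ℝ) ^ ε := by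
    intro ν
    have : (1 : ℝ) ≤ (X ν : ℝ) := by exact_mod_cast (by have := hX2 ν; omega : 1 ≤ X ν)
    exact Real.one_le_rpow this hε.le
  have hBX : ∀ ν, B ν ≤ X ν := by
    intro ν
    by_contra hlt
    push Not at hlt
    have h1 : (T ν).card ≤ X ν ^ n := pl_card (X ν) (T ν) (fun z hz => (hT ν z hz).1)
    have h2 : X ν ^ n ≤ B ν ^ n := Nat.pow_le_pow_left hlt.le _
    have h3 : (((T ν).image (fun z => ∏ i, z i ^ e ν i)).card : ℝ) ≤ (B ν : ℝ) ^ n := by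
      exact_mod_cast (Finset.card_image_le.trans (h1.trans h2))
    have h4 := hcard ν
    have h5 : (B ν : ℝ) ^ n + 1 ≤ ((B ν : ℝ) ^ n + 1) * (X ν : ℝ) ^ ε :=
      le_mul_of_one_le_right (by positivity) (hX1 ν)
    linarith
  have hνB : ∀ ν, ν ≤ B ν := by
    intro ν
    have h1 : ν ≤ (Gr ν + ν + 1) ^ 2 := by
      calc ν ≤ Gr ν + ν + 1 := by omega
        _ ≤ (Gr ν + ν + 1) ^ 2 := by
          rw [pow_two]
          exact Nat.le_mul_of_pos_left _ (Nat.succ_pos _)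
    exact h1.trans (Nat.lt_two_pow_self).le
  have hat : ∀ C : ℕ, ∀ᶠ ν in (Filter.hyperfilter ℕ : Filter ℕ), C ≤ ν := by
    intro C
    exact Nat.hyperfilter_le_atTop (Filter.eventually_ge_atTop C)
  let F : Frame := ⟨Filter.hyperfilter ℕ, X, hX2, fun C => by
    filter_upwards [hat C] with ν hν
    exact hν.trans ((hνB ν).trans (hBX ν))⟩
  have hXi : ∀ ν, (1 : ℤ) ≤ (X ν : ℤ) := by
    intro ν
    have := hX2 ν
    exact_mod_cast (by omega : 1 ≤ X ν)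
  refine pl_ns F d ⟨Filter.Eventually.of_forall fun ν => ⟨hsq ν, hdX ν⟩, fun j => ?_⟩ κ hκ
    (Filter.Eventually.of_forall hXd) e α (fun ν => r ν % (d ν : ℤ) ^ (ν + 1)) Gr ?_
    (Filter.Eventually.of_forall fun ν v => ?_) T (fun ν z hz => (hT ν z hz).1)
    (Filter.Eventually.of_forall fun ν z hz => ?_) (Filter.Eventually.of_forall fun ν => ?_)
    (Filter.Eventually.of_forall fun ν z hz => (hT ν z hz).2.1) (fun H' => ?_)
    ⟨ε, hε, Filter.Eventually.of_forall fun ν => ?_⟩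
  · filter_upwards [hat j] with ν hν p hpp
    have h1 : 0 < p := (Nat.prime_of_mem_primeFactors hpp).pos
    exact (Nat.pow_le_pow_right h1 (by omega)).trans (hp ν p hpp)
  · intro C
    filter_upwards [hat C] with ν hν
    exact (Nat.pow_le_pow_right (by norm_num) (Nat.pow_le_pow_left (by omega) 2)).trans (hBX ν)
  · have h1 := he ν v
    have h2 : H * m ν ≤ H * m ν * (n + 1) := Nat.le_mul_of_pos_right _ (Nat.succ_pos n)
    show e ν v ≤ H * m ν * (n + 1) + ν + 1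
    omega
  · have h1 : |∏ v, z v ^ e ν v| ≤ (X ν : ℤ) ^ (H * m ν * n) := by
      rw [Finset.abs_prod]
      calc ∏ v, |z v ^ e ν v| ≤ ∏ _v : Fin n, (X ν : ℤ) ^ (H * m ν) := by
            refine Finset.prod_le_prod (fun v _ => abs_nonneg _) fun v _ => ?_
            have h2 := (hT ν z hz).1 v
            rw [abs_pow, abs_of_nonneg (by omega : 0 ≤ z v)]
            exact (pow_le_pow_left₀ (by omega) h2.2 _).trans
              (pow_le_pow_right₀ (hXi ν) (he ν v))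
        _ = _ := by
            rw [Finset.prod_const, Finset.card_univ, Fintype.card_fin, ← pow_mul]
    rw [abs_mul]
    calc |α ν| * |∏ v, z v ^ e ν v| ≤ (X ν : ℤ) ^ (H * m ν) * (X ν : ℤ) ^ (H * m ν * n) :=
          mul_le_mul (hα ν) h1 (abs_nonneg _) (by have := hXi ν; positivity)
      _ = (X ν : ℤ) ^ (H * m ν * (n + 1)) := by rw [← pow_add]; congr 1; ring
      _ ≤ _ := pow_le_pow_right₀ (hXi ν) (by show _ ≤ H * m ν * (n + 1) + ν + 1; omega)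
  · have hd0 : (0 : ℤ) < (d ν : ℤ) ^ (ν + 1) := by
      have : 0 < d ν := Nat.pos_of_ne_zero (hsq ν).ne_zero
      positivity
    rw [abs_of_nonneg (Int.emod_nonneg _ hd0.ne')]
    refine (Int.emod_lt_of_pos _ hd0).le.trans ?_
    refine (pow_le_pow_left₀ (by positivity) (show (d ν : ℤ) ≤ (X ν : ℤ) by exact_mod_cast hdX ν)
      _).trans ?_
    exact pow_le_pow_right₀ (hXi ν) (by show _ ≤ H * m ν * (n + 1) + ν + 1; omega)
  · filter_upwards [hat H'] with ν hν z hz p hpp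
    have h1 := (hT ν z hz).2.2
    have h2 : (d ν : ℤ) ^ (ν + 1) ∣ α ν * ∏ v, z v ^ e ν v - r ν % (d ν : ℤ) ^ (ν + 1) := by
      have h3 : α ν * ∏ v, z v ^ e ν v - r ν % (d ν : ℤ) ^ (ν + 1) =
          (α ν * ∏ v, z v ^ e ν v - r ν) + (d ν : ℤ) ^ (ν + 1) * (r ν / (d ν : ℤ) ^ (ν + 1)) := by
        have := Int.emod_add_mul_ediv (r ν) ((d ν : ℤ) ^ (ν + 1))
        linarith
      rw [h3]
      exact dvd_add h1 (dvd_mul_right _ _)
    refine dvd_trans ?_ h2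
    have h4 : (p : ℤ) ∣ (d ν : ℤ) := by exact_mod_cast Nat.dvd_of_mem_primeFactors hpp
    exact (pow_dvd_pow_of_dvd h4 H').trans (pow_dvd_pow _ (by omega))
  · have h4 := hcard ν
    have h5 : (X ν : ℝ) ^ ε ≤ ((B ν : ℝ) ^ n + 1) * (X ν : ℝ) ^ ε := by
      have h6 : (1 : ℝ) ≤ (B ν : ℝ) ^ n + 1 := by
        have : (0 : ℝ) ≤ (B ν : ℝ) ^ n := by positivity
        linarith
      exact le_mul_of_one_le_left (by have := hX1 ν; linarith) h6
    exact h5.trans h4.le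

end Pool.Agent.Helper24.TV
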