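import Pool.Agent.Helper93.TS.RelModC
import Pool.Agent.Helper93.TS.DivS
import Pool.Agent.Helper85.VA.Constancy

/-!
TV-01 (MP_464c42_nt). The nonstandard pointwise lemma: the numbers `α ∏ z_v ^ e_v` in one class modulo high powers of many
small primes take few values.
-/

set_option autoImplicit false

open MvPolynomial

namespace Pool.Agent.Helper24.TV

open Pool.Agent.Helper91.CPX Pool.Agent.Helper85.VA Pool.Agent.Helper93.TS

private theorem pl_om {ι : Type} [Fintype ι] [DecidableEq ι] (𝒮 : Setup ι) (q : ℕ → ℕ)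
    (hq : Moduli 𝒮.F q) (κ : ℝ) (hκ : 0 < κ)
    (hqX : ∀ᶠ ν in (𝒮.F.U : Filter ℕ), (𝒮.F.X ν : ℝ) ^ κ ≤ (q ν : ℝ))
    (τ : Terms 𝒮 Bool) (hE : τ.EZ false = 0)
    (hcop : ∀ᶠ ν in (𝒮.F.U : Filter ℕ), ∀ z ∈ 𝒮.T ν, ∀ p ∈ (q ν).primeFactors,
      ¬ (p : ℤ) ∣ τ.val ν true z)
    (hdvd : ∀ H : ℕ, ∀ᶠ ν in (𝒮.F.U : Filter ℕ), ∀ z ∈ 𝒮.T ν, ∀ p ∈ (q ν).primeFactors,
      (p : ℤ) ^ H ∣ τ.val ν true z + τ.val ν false z) (D : 𝒮.Der) : 𝒮.om (τ.EZ true) D = 0 := by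
  classical
  obtain ⟨W, hW, hWD⟩ := exists_relModC 𝒮 τ q hq (fun _ _ => True)
  have h1 : (fun _ : Bool => (1 : 𝒮.L)) ∈ W := by
    rw [hW]
    refine ⟨1, fun _ => 1, ?_, fun b => ?_, ?_⟩
    · rw [map_one]; exact one_ne_zero
    · rw [map_one, one_mul]
    · refine zero_of_dvd fun H => ?_
      filter_upwards [hdvd H] with ν h z hz _ p hp
      simp only [map_one, one_mul, Fintype.sum_bool]
      exact h z hz p hp
  have h2 := hWD D _ h1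
  rw [hW] at h2
  obtain ⟨s, V, hs, hV, hZ⟩ := h2
  have hVf : 𝒮.cls (V false) = 0 := by
    rw [hV false]
    show 𝒮.cls s * (D 1 + 𝒮.om (τ.EZ false) D * 1) = 0
    rw [hE]
    simp [Setup.om]
  have hVt : 𝒮.cls (V true) = 𝒮.cls s * 𝒮.om (τ.EZ true) D := by
    rw [hV true]
    simp
  -- the term `false` drops out, `τ_true` is prime to `q`
  have hZ1 : Zero 𝒮 q (fun _ _ => True) (fun ν z => 𝒮.ev ν z (V true) * 1) := by
    intro H j
    refine (hZ H j).mono ?_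
    filter_upwards [hcop, (𝒮.cls_eq_zero_iff _).mp hVf] with ν h3 h4 z hz h5
    refine ⟨trivial, lt_of_lt_of_le h5.2 (Nat.pow_le_pow_left ?_ j)⟩
    refine bad_le_of_imp fun p hp h6 => ?_
    simp only [Fintype.sum_bool, h4 z hz, zero_mul, add_zero] at h6
    rw [mul_one]
    have hp' : Prime (p : ℤ) := Nat.prime_iff_prime_int.mp (Nat.prime_of_mem_primeFactors hp)
    have hc : IsCoprime ((p : ℤ) ^ H) (τ.val ν true z) :=
      IsCoprime.pow_left ((Prime.coprime_iff_not_dvd hp').mpr (h3 z hz p hp))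
    exact hc.dvd_of_dvd_mul_right h6
  by_contra hne
  have hV0 : 𝒮.cls (V true) ≠ 0 := by
    rw [hVt]
    exact mul_ne_zero hs hne
  have hZ2 := zero_div (V true) hV0 hZ1
  obtain ⟨j, hj⟩ := exists_nat_gt (1 / κ)
  have hsm := hZ2 1 j
  apply hsm
  refine large_mono 𝒮.F 𝒮.M 𝒮.T _ ?_ 𝒮.large
  filter_upwards [hqX, hq.1] with ν h3 h4 z hz
  rw [𝒮.mem_sub]
  refine ⟨hz, trivial, ?_⟩
  have hb : bad (q ν) 1 1 = q ν := by
    unfold bad
    rw [Finset.filter_true_of_mem, Nat.prod_primeFactors_of_squarefree h4.1]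
    intro p hp
    rw [pow_one]
    intro h
    have hp' : Prime (p : ℤ) := Nat.prime_iff_prime_int.mp (Nat.prime_of_mem_primeFactors hp)
    exact hp'.not_isUnit (isUnit_of_dvd_one h)
  rw [hb]
  have hX1 : (1 : ℝ) < 𝒮.F.X ν := by
    have := 𝒮.F.two_le ν
    exact_mod_cast (by omega : 1 < 𝒮.F.X ν)
  have hjp : (0 : ℝ) < j := lt_trans (by positivity) hj
  have h5 : ((𝒮.F.X ν : ℝ) ^ κ) ^ j ≤ ((q ν : ℝ)) ^ j := pow_le_pow_left₀ (by positivity) h3 j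
  have h6 : (𝒮.F.X ν : ℝ) < ((𝒮.F.X ν : ℝ) ^ κ) ^ j := by
    rw [← Real.rpow_mul_natCast (by positivity)]
    conv_lhs => rw [← Real.rpow_one (𝒮.F.X ν : ℝ)]
    apply Real.rpow_lt_rpow_of_exponent_lt hX1
    rw [div_lt_iff₀ hκ] at hj
    linarith
  exact_mod_cast lt_of_lt_of_le h6 h5

/-- No family with many values of `∏ z_v ^ e_v` satisfies one congruence modulo all powers of the primes of `q`. -/
theorem pl_ns (F : Frame) {ι : Type} [Fintype ι] [DecidableEq ι] (q : ℕ → ℕ) (hq : Moduli F q)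
    (κ : ℝ) (hκ : 0 < κ) (hqX : ∀ᶠ ν in (F.U : Filter ℕ), (F.X ν : ℝ) ^ κ ≤ (q ν : ℝ))
    (e : ℕ → ι → ℕ) (α r : ℕ → ℤ) (Gr : ℕ → ℕ)
    (hG : ∀ C : ℕ, ∀ᶠ ν in (F.U : Filter ℕ), 2 ^ ((Gr ν + C + 1) ^ 2) ≤ F.X ν)
    (he : ∀ᶠ ν in (F.U : Filter ℕ), ∀ v, e ν v ≤ Gr ν)
    (T : ℕ → Finset (ι → ℤ)) (hT : Bdd F T)
    (hα : ∀ᶠ ν in (F.U : Filter ℕ), ∀ z ∈ T ν, |α ν * ∏ v, z v ^ e ν v| ≤ (F.X ν : ℤ) ^ Gr ν)
    (hr : ∀ᶠ ν in (F.U : Filter ℕ), |r ν| ≤ (F.X ν : ℤ) ^ Gr ν)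
    (hcop : ∀ᶠ ν in (F.U : Filter ℕ), ∀ z ∈ T ν, ∀ p ∈ (q ν).primeFactors,
      ¬ (p : ℤ) ∣ α ν * ∏ v, z v ^ e ν v)
    (hdvd : ∀ H : ℕ, ∀ᶠ ν in (F.U : Filter ℕ), ∀ z ∈ T ν, ∀ p ∈ (q ν).primeFactors,
      (p : ℤ) ^ H ∣ α ν * ∏ v, z v ^ e ν v - r ν)
    (hL : Large F (fun ν z => ∏ v, z v ^ e ν v) T) : False := by
  classical
  obtain ⟨T1, hT1, hL1, hprime, hmax⟩ := exists_maximal F _ T hT hL
  let 𝒮 : Setup ι := ⟨F, fun ν z => ∏ v, z v ^ e ν v, T1, fun ν z hz => hT ν z (hT1 ν hz), hL1,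
    hprime, hmax⟩
  have hGX : ∀ᶠ ν in (F.U : Filter ℕ), Gr ν ≤ F.X ν := by
    filter_upwards [hG 0] with ν h
    refine le_trans ?_ h
    have h1 : Gr ν ≤ (Gr ν + 0 + 1) ^ 2 := by nlinarith
    exact h1.trans Nat.lt_two_pow_self.le
  let eZ : ι → Zb F := fun v => ⟨fun ν => (e ν v : ℤ), ⟨1, by
    filter_upwards [he, hGX] with ν h1 h2
    rw [abs_of_nonneg (by positivity), pow_one]
    exact_mod_cast (h1 v).trans h2⟩⟩
  let τ : Terms 𝒮 Bool :=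
    { t := fun ν b => if b then α ν else - r ν
      E := fun ν b v => if b then e ν v else 0
      EZ := fun b => if b then eZ else 0
      hEZ := by
        intro ν b v
        cases b
        · simp
        · simp only [if_true]; rfl
      G := Gr
      hG := hG
      hτ := by
        filter_upwards [hα, hr] with ν h1 h2 z hz b
        cases b
        · simpa using h2
        · simpa using h1 z (hT1 ν hz) }
  have hvt : ∀ ν z, τ.val ν true z = α ν * ∏ v, z v ^ e ν v := by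
    intro ν z
    simp [Terms.val, τ]
  have hvf : ∀ ν z, τ.val ν false z = - r ν := by
    intro ν z
    simp [Terms.val, τ]
  have hom := pl_om 𝒮 q hq κ hκ hqX τ (by simp [τ])
    (by
      filter_upwards [hcop] with ν h z hz p hp
      rw [hvt]
      exact h z (hT1 ν hz) p hp)
    (by
      intro H
      filter_upwards [hdvd H] with ν h z hz p hp
      rw [hvt, hvf, ← sub_eq_add_neg]
      exact h z (hT1 ν hz) p hp)
  obtain ⟨D, hD, Sm, hSm, hc⟩ := constancy 𝒮 (s := ι) (fun v => X v) (fun _ => 1)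
    (fun v => 𝒮.cls_X_ne v) (fun _ => by rw [map_one]; exact one_ne_zero) eZ
    (by
      intro δ
      have h1 := hom δ
      have h2 : τ.EZ true = eZ := by simp [τ]
      rw [h2] at h1
      simp only [map_one, div_one]
      exact h1)
  -- the good points have one value
  have hLc := hSm.large_compl
  obtain ⟨δ, hδ, hcard⟩ := hLc
  have hX2 : ∀ᶠ ν in (F.U : Filter ℕ), (2 : ℝ) ≤ (F.X ν : ℝ) ^ δ := by
    obtain ⟨C, hC⟩ := exists_nat_gt ((2 : ℝ) ^ (1 / δ))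
    filter_upwards [F.tends C] with ν h
    have h1 : (2 : ℝ) ^ (1 / δ) ≤ F.X ν := hC.le.trans (by exact_mod_cast h)
    have h2 := Real.rpow_le_rpow (by positivity) h1 hδ.le
    rwa [← Real.rpow_mul (by norm_num), one_div_mul_cancel hδ.ne', Real.rpow_one] at h2
  obtain ⟨ν, h1, h2, h3⟩ := (hcard.and (hX2.and hc)).exists
  have h4 : ((𝒮.sub (fun ν z => ¬ Sm ν z) ν).image (𝒮.M ν)).card ≤ 1 := by
    rw [Finset.card_le_one]
    intro x hx y hy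
    rw [Finset.mem_image] at hx hy
    obtain ⟨z, hz, rfl⟩ := hx
    obtain ⟨z0, hz0, rfl⟩ := hy
    rw [𝒮.mem_sub] at hz hz0
    obtain ⟨-, h5⟩ := h3 z hz.1 z0 hz0.1 hz.2 hz0.2
    have hpos : ∀ w ∈ 𝒮.T ν, ∀ v, (1 : ℤ) ≤ w v := fun w hw v => (𝒮.bdd ν w hw v).1
    have key : ∀ w : ι → ℤ, ∏ v, ((𝒮.ev ν w (X v) : ℚ) / (𝒮.ev ν w 1 : ℚ)) ^
        ((D : ℤ) * (eZ v : ℕ → ℤ) ν) = ((𝒮.M ν w : ℤ) : ℚ) ^ D := by
      intro w
      have h6 : 𝒮.M ν w = ∏ v, w v ^ e ν v := rfl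
      rw [h6, Int.cast_prod, ← Finset.prod_pow]
      refine Finset.prod_congr rfl fun v _ => ?_
      rw [𝒮.ev_X, map_one, Int.cast_one, div_one, Int.cast_pow, ← pow_mul]
      have h7 : (eZ v : ℕ → ℤ) ν = (e ν v : ℤ) := rfl
      rw [h7, ← Nat.cast_mul, zpow_natCast, mul_comm]
    rw [key z, key z0] at h5
    have hM0 : ∀ w ∈ 𝒮.T ν, (0 : ℤ) ≤ 𝒮.M ν w := by
      intro w hw
      exact Finset.prod_nonneg fun v _ => pow_nonneg (by have := hpos w hw v; omega) _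
    have h8 : ((𝒮.M ν z : ℤ) : ℚ) = ((𝒮.M ν z0 : ℤ) : ℚ) :=
      (pow_left_inj₀ (by exact_mod_cast hM0 z hz.1) (by exact_mod_cast hM0 z0 hz0.1)
        hD.ne').mp h5
    exact_mod_cast h8
  have h5 : (2 : ℝ) ≤ (((𝒮.sub (fun ν z => ¬ Sm ν z) ν).image (𝒮.M ν)).card : ℝ) := h2.trans h1
  have h6 : (((𝒮.sub (fun ν z => ¬ Sm ν z) ν).image (𝒮.M ν)).card : ℝ) ≤ 1 := by exact_mod_cast h4
  linarith

end Pool.Agent.Helper24.TV
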