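import Pool.Agent.Helper24.TU.Reg1

/-!
TV-04 (MP_464c42_nt). Pairs of integers of small radicals with a given sum modulo `q` (two sets), and the first regime for
three terms: `a 2` is divisible by `d ^ M`.
-/

set_option autoImplicit false

open Pool.Agent.Helper87.Camp Pool.Agent.Helper10 Pool.Agent.Helper91.CPX

namespace Pool.Agent.Helper24.TV

open Pool.Agent.Helper24.TU

/-- Pairs in two sets with a given sum modulo `q`: Cauchy-Schwarz. -/
theorem pair_mod2 (q : ℕ) [NeZero q] (A B : Finset ℤ) (k : ℤ) :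
    (((A ×ˢ B).filter (fun p => (q : ℤ) ∣ p.1 + p.2 - k)).card : ℝ) ^ 2 ≤
      (coll A (fun a => (a : ZMod q)) : ℝ) * (coll B (fun a => (a : ZMod q)) : ℝ) := by
  classical
  have h1 : ((A ×ˢ B).filter (fun p => (q : ℤ) ∣ p.1 + p.2 - k)).card =
      ∑ r : ZMod q, (A.filter (fun a : ℤ => (a : ZMod q) = r)).card *
        (B.filter (fun a : ℤ => (a : ZMod q) = (k : ZMod q) - r)).card := by
    rw [Finset.card_eq_sum_card_fiberwise (f := fun p : ℤ × ℤ => (p.1 : ZMod q)) (t := Finset.univ)]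
    · refine Finset.sum_congr rfl fun r _ => ?_
      rw [← Finset.card_product]
      congr 1
      ext ⟨x, y⟩
      simp only [Finset.mem_filter, Finset.mem_product]
      have h2 : (q : ℤ) ∣ x + y - k ↔ (x : ZMod q) + y = k := by
        rw [← ZMod.intCast_zmod_eq_zero_iff_dvd]
        push_cast
        rw [sub_eq_zero]
      rw [h2]
      constructor
      · rintro ⟨⟨⟨hx, hy⟩, h3⟩, h4⟩
        refine ⟨⟨hx, h4⟩, hy, ?_⟩
        rw [← h4, ← h3]; ring
      · rintro ⟨⟨hx, h4⟩, hy, h5⟩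
        refine ⟨⟨⟨hx, hy⟩, ?_⟩, h4⟩
        rw [h4, h5]; ring
    · intro p _
      exact Finset.mem_coe.2 (Finset.mem_univ _)
  rw [h1, coll_eq_sum_sq A (fun a => (a : ZMod q)) Finset.univ (fun a _ => Finset.mem_univ _),
    coll_eq_sum_sq B (fun a => (a : ZMod q)) Finset.univ (fun a _ => Finset.mem_univ _)]
  have h2 : ∑ r : ZMod q, (B.filter (fun a : ℤ => (a : ZMod q) = (k : ZMod q) - r)).card ^ 2 =
      ∑ r : ZMod q, (B.filter (fun a : ℤ => (a : ZMod q) = r)).card ^ 2 := by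
    exact Fintype.sum_equiv (Equiv.subLeft (k : ZMod q)) _ _ (fun r => by rw [Equiv.subLeft_apply])
  rw [← h2]
  push_cast
  exact Finset.sum_mul_sq_le_sq_mul_sq _ _ _

theorem regime1V (M E : ℕ) (hE : 1 ≤ E) (S : Finset ℕ) (ε : ℝ) (hε : 0 < ε) :
    ∃ C : ℝ, 1 ≤ C ∧ ∀ Y0 Y1 N : ℕ, 1 ≤ Y0 → 1 ≤ Y1 → 1 ≤ N → ∀ V : ℕ, ∀ T : Finset (Fin 3 → ℤ),
      (∀ a ∈ T, a 0 ∈ Rset S Y0 N ∧ a 1 ∈ Rset S Y1 N ∧ a 2 ≠ 0 ∧ (a 2).natAbs ≤ N ∧
        a 0 + a 1 + a 2 = 0 ∧ ∃ d : ℕ, 1 ≤ d ∧ d ≤ V ∧ ((d ^ M : ℕ) : ℤ) ∣ a 2 ∧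
          IsCoprime (a 0) (d : ℤ) ∧ IsCoprime (a 1) (d : ℤ) ∧ (2 ^ E * Y0) ^ 4 ≤ d ^ M ∧
          (2 ^ E * Y1) ^ 4 ≤ d ^ M) →
      (T.card : ℝ) ≤ C * (V : ℝ) * (Real.sqrt ((Y0 : ℝ) * Y1) *
        (N : ℝ) ^ (2 / ((E : ℝ) + 1) + ε)) := by
  classical
  obtain ⟨δ, hδ⟩ : ∃ δ : ℝ, δ = ε / 2 := ⟨_, rfl⟩
  have hδ0 : 0 < δ := by rw [hδ]; positivity
  obtain ⟨C2, hC2, h2⟩ := collisionR S E hE δ hδ0
  refine ⟨C2, hC2, fun Y0 Y1 N hY0 hY1 hN V T hT => ?_⟩
  have hN1 : (1 : ℝ) ≤ N := by exact_mod_cast hN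
  have hN0 : (0 : ℝ) < N := by linarith
  obtain ⟨c, hc⟩ : ∃ c : ℝ, c = 2 / ((E : ℝ) + 1) := ⟨_, rfl⟩
  rw [← hc] at h2 ⊢
  choose! gd hd1 hdV hdiv hc0 hc1 hb0 hb1 using fun a ha => (hT a ha).2.2.2.2.2
  obtain ⟨K, hK⟩ : ∃ K : ℝ, K = C2 * (Real.sqrt ((Y0 : ℝ) * Y1) * (N : ℝ) ^ (c + ε)) := ⟨_, rfl⟩
  have hK0 : 0 ≤ K := by rw [hK]; positivity
  have hstep : (T.card : ℝ) ≤ K * (Finset.Icc 1 V).card := by
    apply card_le_real gd
    · intro a ha
      rw [Finset.mem_Icc]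
      exact ⟨hd1 a ha, hdV a ha⟩
    · intro d _
      rcases (T.filter (fun a => gd a = d)).eq_empty_or_nonempty with h0 | ⟨a1, ha1⟩
      · rw [h0, Finset.card_empty, Nat.cast_zero]
        exact hK0
      · rw [Finset.mem_filter] at ha1
        obtain ⟨hT1, e1⟩ := ha1
        have hd1' : 1 ≤ d := by rw [← e1]; exact hd1 a1 hT1
        have hb0' : (2 ^ E * Y0) ^ 4 ≤ d ^ M := by rw [← e1]; exact hb0 a1 hT1
        have hb1' : (2 ^ E * Y1) ^ 4 ≤ d ^ M := by rw [← e1]; exact hb1 a1 hT1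
        have hq1 : 1 ≤ d ^ M := Nat.one_le_pow _ _ hd1'
        have hqN : d ^ M ≤ N := by
          have h3 := hdiv a1 hT1
          rw [e1, Int.natCast_dvd] at h3
          exact (Nat.le_of_dvd (Int.natAbs_pos.2 (hT a1 hT1).2.2.1) h3).trans (hT a1 hT1).2.2.2.1
        have hneq : NeZero (d ^ M) := ⟨by omega⟩
        have hcoll : ∀ Y : ℕ, 1 ≤ Y → (2 ^ E * Y) ^ 4 ≤ d ^ M →
            (coll ((Rset S Y N).filter (fun a => IsCoprime a ((d ^ M : ℕ) : ℤ)))
              (fun a => (a : ZMod (d ^ M))) : ℝ) ≤ C2 * (N : ℝ) ^ δ * ((Y : ℝ) * (N : ℝ) ^ (c + δ)) := by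
          intro Y hY hb
          refine (h2 Y N (d ^ M) hY hN hq1 hb).trans ?_
          refine mul_le_mul_of_nonneg_right ?_ (by positivity)
          refine mul_le_mul_of_nonneg_left ?_ (by linarith)
          exact Real.rpow_le_rpow (Nat.cast_nonneg _) (by exact_mod_cast hqN) hδ0.le
        set A : Finset ℤ := (Rset S Y0 N).filter (fun a => IsCoprime a ((d ^ M : ℕ) : ℤ)) with hA
        set B : Finset ℤ := (Rset S Y1 N).filter (fun a => IsCoprime a ((d ^ M : ℕ) : ℤ)) with hB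
        have hle : (T.filter (fun a => gd a = d)).card ≤
            ((A ×ˢ B).filter (fun p => ((d ^ M : ℕ) : ℤ) ∣ p.1 + p.2 - 0)).card := by
          refine Finset.card_le_card_of_injOn (fun a => (a 0, a 1)) ?_ ?_
          · intro a ha
            rw [Finset.mem_coe, Finset.mem_filter] at ha
            obtain ⟨hTa, e2⟩ := ha
            have hcj' := hc0 a hTa
            have hcl' := hc1 a hTa
            have hdv := hdiv a hTa
            rw [e2] at hcj' hcl' hdv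
            rw [Finset.mem_coe, Finset.mem_filter, Finset.mem_product, hA, hB,
              Finset.mem_filter, Finset.mem_filter]
            refine ⟨⟨⟨(hT a hTa).1, ?_⟩, ⟨(hT a hTa).2.1, ?_⟩⟩, ?_⟩
            · push_cast
              exact hcj'.pow_right
            · push_cast
              exact hcl'.pow_right
            · have hs := (hT a hTa).2.2.2.2.1
              have e3 : a 0 + a 1 - 0 = - a 2 := by linarith
              change _ ∣ a 0 + a 1 - 0
              rw [e3]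
              exact (dvd_neg).2 hdv
          · intro a ha b hb hab
            rw [Finset.mem_coe, Finset.mem_filter] at ha hb
            have i1 : a 0 = b 0 := congrArg Prod.fst hab
            have i2 : a 1 = b 1 := congrArg Prod.snd hab
            have hsa := (hT a ha.1).2.2.2.2.1
            have hsb := (hT b hb.1).2.2.2.2.1
            have i3 : a 2 = b 2 := by
              rw [i1, i2] at hsa
              linarith
            funext h
            fin_cases h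
            · exact i1
            · exact i2
            · exact i3
        have h3 := pair_mod2 (d ^ M) A B 0
        have h4 := hcoll Y0 hY0 hb0'
        have h5 := hcoll Y1 hY1 hb1'
        have h6 : ((T.filter (fun a => gd a = d)).card : ℝ) ≤
            (((A ×ˢ B).filter (fun p => ((d ^ M : ℕ) : ℤ) ∣ p.1 + p.2 - 0)).card : ℝ) := by
          exact_mod_cast hle
        refine h6.trans ?_
        refine (sq_le_sq₀ (Nat.cast_nonneg _) hK0).1 ?_
        refine h3.trans ?_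
        have h7 : K ^ 2 = (C2 * (N : ℝ) ^ δ * ((Y0 : ℝ) * (N : ℝ) ^ (c + δ))) *
            (C2 * (N : ℝ) ^ δ * ((Y1 : ℝ) * (N : ℝ) ^ (c + δ))) := by
          have h8 : (N : ℝ) ^ (c + ε) = (N : ℝ) ^ δ * (N : ℝ) ^ (c + δ) := by
            rw [← Real.rpow_add hN0]
            congr 1
            rw [hδ]; ring
          have h9 : Real.sqrt ((Y0 : ℝ) * Y1) ^ 2 = (Y0 : ℝ) * Y1 := Real.sq_sqrt (by positivity)
          rw [hK, h8, mul_pow, mul_pow, h9]
          ring
        rw [h7]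
        exact mul_le_mul h4 h5 (Nat.cast_nonneg _) (by positivity)
  rw [Nat.card_Icc, Nat.add_sub_cancel] at hstep
  refine hstep.trans (le_of_eq ?_)
  rw [hK]
  ring

end Pool.Agent.Helper24.TV
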