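import Pool.Agent.Helper24.TV.AP2

/-!
TV-08 (MP_464c42_nt). Three of `r` binary linear forms: points of small radicals with two given bounds.
-/

set_option autoImplicit false

open Pool.Agent.Helper87.Camp Pool.Agent.Helper10 Pool.Agent.Helper91.CPX

namespace Pool.Agent.Helper24.TV

open Pool.Agent.Helper24.TU

/-- The value of the form `u i X + v i Y`. -/
def lv {r : ℕ} (u v : Fin r → ℤ) (i : Fin r) (x : ℤ × ℤ) : ℤ := u i * x.1 + v i * x.2

/-- The maximum of the absolute values of the coordinates. -/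
def hgt (x : ℤ × ℤ) : ℕ := max x.1.natAbs x.2.natAbs

/-- The determinant of two forms. -/
def dd {r : ℕ} (u v : Fin r → ℤ) (i j : Fin r) : ℤ := u i * v j - u j * v i

theorem lv_rel {r : ℕ} (u v : Fin r → ℤ) (i j l : Fin r) (x : ℤ × ℤ) :
    dd u v j l * lv u v i x + dd u v l i * lv u v j x + dd u v i j * lv u v l x = 0 := by
  unfold dd lv
  ring

theorem dd_fst {r : ℕ} (u v : Fin r → ℤ) (i j : Fin r) (x : ℤ × ℤ) :
    dd u v i j * x.1 = v j * lv u v i x - v i * lv u v j x := by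
  unfold dd lv
  ring

theorem dd_snd {r : ℕ} (u v : Fin r → ℤ) (i j : Fin r) (x : ℤ × ℤ) :
    dd u v i j * x.2 = u i * lv u v j x - u j * lv u v i x := by
  unfold dd lv
  ring

private lemma tp_rad (S S' : Finset ℕ) (hS : S ⊆ S') (r f : ℤ) (hf : f ≠ 0)
    (hrp : ∀ p : ℕ, p.Prime → p ∉ S' → ¬ (p : ℤ) ∣ r) : radS S' (r * f) ≤ radS S f := by
  apply Nat.le_of_dvd (radS_pos S f)
  unfold radS
  apply Finset.prod_dvd_prod_of_subset
  intro p hp
  rw [Finset.mem_filter, Nat.mem_primeFactors] at hp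
  obtain ⟨⟨hpp, hpd, -⟩, hpS⟩ := hp
  rw [Finset.mem_filter, Nat.mem_primeFactors]
  refine ⟨⟨hpp, ?_, Int.natAbs_ne_zero.2 hf⟩, fun h => hpS (hS h)⟩
  have h1 : (p : ℤ) ∣ r * f := Int.natCast_dvd.2 hpd
  exact Int.natCast_dvd.1 (((Nat.prime_iff_prime_int.1 hpp).dvd_or_dvd h1).resolve_left
    (hrp p hpp hpS))

/-- A bound for the coefficients. -/
def cA {r : ℕ} (u v : Fin r → ℤ) : ℕ := (∑ i, ((u i).natAbs + (v i).natAbs)) + 1

/-- A bound for the determinants. -/
def cD {r : ℕ} (u v : Fin r → ℤ) : ℕ := (∑ i, ∑ j, (dd u v i j).natAbs) + 1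

/-- The primes of `S` and of the determinants. -/
def pS {r : ℕ} (S : Finset ℕ) (u v : Fin r → ℤ) : Finset ℕ :=
  S ∪ Finset.univ.biUnion fun i => Finset.univ.biUnion fun j => (dd u v i j).natAbs.primeFactors

theorem u_le {r : ℕ} (u v : Fin r → ℤ) (i : Fin r) : (u i).natAbs + (v i).natAbs ≤ cA u v := by
  unfold cA
  have := Finset.single_le_sum (f := fun i => (u i).natAbs + (v i).natAbs)
    (fun _ _ => Nat.zero_le _) (Finset.mem_univ i)
  omega

theorem dd_le {r : ℕ} (u v : Fin r → ℤ) (i j : Fin r) : (dd u v i j).natAbs ≤ cD u v := by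
  unfold cD
  have h1 := Finset.single_le_sum (f := fun i => ∑ j, (dd u v i j).natAbs)
    (fun _ _ => Nat.zero_le _) (Finset.mem_univ i)
  have h2 := Finset.single_le_sum (f := fun j => (dd u v i j).natAbs)
    (fun _ _ => Nat.zero_le _) (Finset.mem_univ j)
  omega

theorem lv_le {r : ℕ} (u v : Fin r → ℤ) (i : Fin r) (x : ℤ × ℤ) :
    (lv u v i x).natAbs ≤ cA u v * hgt x := by
  have h1 : (lv u v i x).natAbs ≤ (u i).natAbs * x.1.natAbs + (v i).natAbs * x.2.natAbs := by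
    unfold lv
    rw [← Int.natAbs_mul, ← Int.natAbs_mul]
    exact Int.natAbs_add_le _ _
  have h2 : x.1.natAbs ≤ hgt x := le_max_left _ _
  have h3 : x.2.natAbs ≤ hgt x := le_max_right _ _
  calc (lv u v i x).natAbs ≤ (u i).natAbs * x.1.natAbs + (v i).natAbs * x.2.natAbs := h1
    _ ≤ (u i).natAbs * hgt x + (v i).natAbs * hgt x :=
        Nat.add_le_add (Nat.mul_le_mul_left _ h2) (Nat.mul_le_mul_left _ h3)
    _ = ((u i).natAbs + (v i).natAbs) * hgt x := by ring
    _ ≤ _ := Nat.mul_le_mul_right _ (u_le u v i)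

/-- Of two different forms one is large. -/
theorem lv_large {r : ℕ} (u v : Fin r → ℤ) (i j : Fin r) (hij : dd u v i j ≠ 0) (x : ℤ × ℤ) :
    hgt x ≤ 2 * cA u v * (lv u v i x).natAbs ∨ hgt x ≤ 2 * cA u v * (lv u v j x).natAbs := by
  have hd1 : 1 ≤ (dd u v i j).natAbs := Nat.one_le_iff_ne_zero.2 (Int.natAbs_ne_zero.2 hij)
  have key : hgt x ≤ cA u v * (lv u v i x).natAbs + cA u v * (lv u v j x).natAbs := by
    unfold hgt
    apply max_le
    · calc x.1.natAbs = 1 * x.1.natAbs := (one_mul _).symm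
        _ ≤ (dd u v i j).natAbs * x.1.natAbs := Nat.mul_le_mul_right _ hd1
        _ = (v j * lv u v i x - v i * lv u v j x).natAbs := by
            rw [← Int.natAbs_mul, dd_fst]
        _ ≤ (v j).natAbs * (lv u v i x).natAbs + (v i).natAbs * (lv u v j x).natAbs := by
            rw [← Int.natAbs_mul, ← Int.natAbs_mul]
            exact Int.natAbs_sub_le _ _
        _ ≤ _ := by
            have h1 := u_le u v i
            have h2 := u_le u v j
            exact Nat.add_le_add (Nat.mul_le_mul_right _ (by omega))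
              (Nat.mul_le_mul_right _ (by omega))
    · calc x.2.natAbs = 1 * x.2.natAbs := (one_mul _).symm
        _ ≤ (dd u v i j).natAbs * x.2.natAbs := Nat.mul_le_mul_right _ hd1
        _ = (u i * lv u v j x - u j * lv u v i x).natAbs := by
            rw [← Int.natAbs_mul, dd_snd]
        _ ≤ (u i).natAbs * (lv u v j x).natAbs + (u j).natAbs * (lv u v i x).natAbs := by
            rw [← Int.natAbs_mul, ← Int.natAbs_mul]
            exact Int.natAbs_sub_le _ _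
        _ ≤ cA u v * (lv u v j x).natAbs + cA u v * (lv u v i x).natAbs := by
            have h1 := u_le u v i
            have h2 := u_le u v j
            exact Nat.add_le_add (Nat.mul_le_mul_right _ (by omega))
              (Nat.mul_le_mul_right _ (by omega))
        _ = _ := Nat.add_comm _ _
  rcases le_total (lv u v i x).natAbs (lv u v j x).natAbs with h | h
  · right
    have h1 := Nat.mul_le_mul_left (cA u v) h
    calc hgt x ≤ _ := key
      _ ≤ cA u v * (lv u v j x).natAbs + cA u v * (lv u v j x).natAbs := by omega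
      _ = _ := by ring
  · left
    have h1 := Nat.mul_le_mul_left (cA u v) h
    calc hgt x ≤ _ := key
      _ ≤ cA u v * (lv u v i x).natAbs + cA u v * (lv u v i x).natAbs := by omega
      _ = _ := by ring

/-- A prime outside `pS` divides at most one form. -/
theorem lv_cop {r : ℕ} (S : Finset ℕ) (u v : Fin r → ℤ) (hD : ∀ i j, i ≠ j → dd u v i j ≠ 0)
    (x : ℤ × ℤ) (hx : IsCoprime x.1 x.2) (p : ℕ) (hp : p.Prime) (hpS : p ∉ pS S u v) (i j : Fin r)
    (hij : i ≠ j) (hi : (p : ℤ) ∣ lv u v i x) : ¬ (p : ℤ) ∣ lv u v j x := by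
  intro hj
  have hp' : Prime (p : ℤ) := Nat.prime_iff_prime_int.mp hp
  have hnd : ¬ (p : ℤ) ∣ dd u v i j := by
    intro h
    apply hpS
    unfold pS
    rw [Finset.mem_union]
    right
    rw [Finset.mem_biUnion]
    refine ⟨i, Finset.mem_univ _, ?_⟩
    rw [Finset.mem_biUnion]
    refine ⟨j, Finset.mem_univ _, ?_⟩
    rw [Nat.mem_primeFactors]
    exact ⟨hp, Int.natCast_dvd.1 h, Int.natAbs_ne_zero.2 (hD i j hij)⟩
  have h1 : (p : ℤ) ∣ dd u v i j * x.1 := by
    rw [dd_fst]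
    exact dvd_sub (Dvd.dvd.mul_left hi _) (Dvd.dvd.mul_left hj _)
  have h2 : (p : ℤ) ∣ dd u v i j * x.2 := by
    rw [dd_snd]
    exact dvd_sub (Dvd.dvd.mul_left hj _) (Dvd.dvd.mul_left hi _)
  have h3 := (hp'.dvd_or_dvd h1).resolve_left hnd
  have h4 := (hp'.dvd_or_dvd h2).resolve_left hnd
  exact hp'.not_isUnit (hx.isUnit_of_dvd' h3 h4)

theorem trip (ε : ℝ) (hε : 0 < ε) :
    ∃ lam0 : ℝ, 0 < lam0 ∧ ∀ lam : ℝ, 0 < lam → lam ≤ lam0 → ∀ (r : ℕ) (S : Finset ℕ)
      (u v : Fin r → ℤ), (∀ i j, i ≠ j → dd u v i j ≠ 0) → ∀ K : ℕ, 1 ≤ K →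
      ∀ i j l : Fin r, i ≠ j → i ≠ l → j ≠ l → ∃ C : ℝ, 1 ≤ C ∧
      ∀ H Y0 Y1 : ℕ, 1 ≤ H → 1 ≤ Y0 → Y0 ≤ Y1 →
      (Y1 : ℝ) ≤ ((K * (cD u v * cA u v) * H : ℕ) : ℝ) ^ lam →
      ∀ T : Finset (ℤ × ℤ), (∀ x ∈ T, IsCoprime x.1 x.2 ∧ hgt x ≤ H ∧ H ≤ 2 * hgt x ∧
        lv u v i x ≠ 0 ∧ lv u v j x ≠ 0 ∧ lv u v l x ≠ 0 ∧
        radS S (lv u v i x) ≤ Y0 ∧ radS S (lv u v j x) ≤ Y1 ∧
        (radS S (lv u v l x) : ℝ) ≤ (H : ℝ) ^ lam) →
      (T.card : ℝ) ≤ C * (Real.sqrt ((Y0 : ℝ) * Y1) *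
        ((K * (cD u v * cA u v) * H : ℕ) : ℝ) ^ (ε * lam)) := by
  classical
  obtain ⟨lam0, hlam0, hmain⟩ := ap2 ε hε
  refine ⟨lam0, hlam0, fun lam hlam hle r S u v hD K hK i j l hij hil hjl => ?_⟩
  obtain ⟨A, hA⟩ : ∃ A, A = cA u v := ⟨_, rfl⟩
  obtain ⟨Dm, hDm⟩ : ∃ Dm, Dm = cD u v := ⟨_, rfl⟩
  have hA1 : 1 ≤ A := by rw [hA]; unfold cA; omega
  have hDm1 : 1 ≤ Dm := by rw [hDm]; unfold cD; omega
  obtain ⟨S', hS'⟩ : ∃ S', S' = pS S u v := ⟨_, rfl⟩
  have hSS : S ⊆ S' := by rw [hS']; exact Finset.subset_union_left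
  obtain ⟨G, hG⟩ : ∃ G, G = 4 * A * (K * (Dm * A)) + Dm ^ 3 := ⟨_, rfl⟩
  obtain ⟨C, hC1, hC⟩ := hmain lam hlam hle S' G
  refine ⟨C, hC1, fun H Y0 Y1 hH hY0 hY01 hY1 T hT => ?_⟩
  rw [← hA, ← hDm] at hY1 ⊢
  have hndd : ∀ p : ℕ, p.Prime → p ∉ S' → ∀ i j : Fin r, i ≠ j → ¬ (p : ℤ) ∣ dd u v i j := by
    intro p hp hpS i j hij h
    apply hpS
    rw [hS']
    unfold pS
    rw [Finset.mem_union]
    right
    rw [Finset.mem_biUnion]
    refine ⟨i, Finset.mem_univ _, ?_⟩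
    rw [Finset.mem_biUnion]
    refine ⟨j, Finset.mem_univ _, ?_⟩
    rw [Nat.mem_primeFactors]
    exact ⟨hp, Int.natCast_dvd.1 h, Int.natAbs_ne_zero.2 (hD i j hij)⟩
  obtain ⟨f, hf⟩ : ∃ f : ℤ × ℤ → (Fin 3 → ℤ), f = fun x =>
    ![dd u v j l * lv u v i x, dd u v l i * lv u v j x, dd u v i j * lv u v l x] := ⟨_, rfl⟩
  have hf0 : ∀ x, f x 0 = dd u v j l * lv u v i x := fun x => by rw [hf]; rfl
  have hf1 : ∀ x, f x 1 = dd u v l i * lv u v j x := fun x => by rw [hf]; rfl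
  have hf2 : ∀ x, f x 2 = dd u v i j * lv u v l x := fun x => by rw [hf]; rfl
  have hDjl := hD j l hjl
  have hDli := hD l i (Ne.symm hil)
  have hDij := hD i j hij
  have hinj : Set.InjOn f T := by
    intro x _ y _ hxy
    have h0 : lv u v i x = lv u v i y := by
      have := congrFun hxy 0
      rw [hf0, hf0] at this
      exact mul_left_cancel₀ hDjl this
    have h1 : lv u v j x = lv u v j y := by
      have := congrFun hxy 1
      rw [hf1, hf1] at this
      exact mul_left_cancel₀ hDli this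
    have h2 : dd u v i j * x.1 = dd u v i j * y.1 := by rw [dd_fst, dd_fst, h0, h1]
    have h3 : dd u v i j * x.2 = dd u v i j * y.2 := by rw [dd_snd, dd_snd, h0, h1]
    exact Prod.ext (mul_left_cancel₀ hDij h2) (mul_left_cancel₀ hDij h3)
  rw [← Finset.card_image_of_injOn hinj]
  have hKN : 1 ≤ K * (Dm * A) := Nat.mul_pos (by omega) (Nat.mul_pos (by omega) (by omega))
  have hN : 1 ≤ K * (Dm * A) * H := Nat.mul_pos hKN (by omega)
  apply hC (K * (Dm * A) * H) Y0 Y1 hN hY0 hY01 hY1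
  intro a ha
  rw [Finset.mem_image] at ha
  obtain ⟨x, hx, rfl⟩ := ha
  obtain ⟨hx1, hxH, hHx, hi0, hj0, hl0, hri, hrj, hrl⟩ := hT x hx
  have hsz : ∀ s t h : Fin r, (dd u v s t * lv u v h x).natAbs ≤ K * (Dm * A) * H := by
    intro s t h
    rw [Int.natAbs_mul]
    calc (dd u v s t).natAbs * (lv u v h x).natAbs ≤ Dm * (A * hgt x) := by
          rw [hA, hDm]
          exact Nat.mul_le_mul (dd_le u v s t) (lv_le u v h x)
      _ ≤ Dm * (A * H) := Nat.mul_le_mul_left _ (Nat.mul_le_mul_left _ hxH)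
      _ = 1 * (Dm * A) * H := by ring
      _ ≤ K * (Dm * A) * H := Nat.mul_le_mul_right _ (Nat.mul_le_mul_right _ hK)
  have hHN : H ≤ K * (Dm * A) * H := by
    calc H = 1 * H := (one_mul _).symm
      _ ≤ _ := Nat.mul_le_mul_right _ hKN
  have hlarge : ∀ s t h : Fin r, s ≠ t → hgt x ≤ 2 * A * (lv u v h x).natAbs →
      ((K * (Dm * A) * H : ℕ) : ℤ) ≤ (G : ℤ) * |dd u v s t * lv u v h x| := by
    intro s t h hst hh
    have hd1 : 1 ≤ (dd u v s t).natAbs :=
      Nat.one_le_iff_ne_zero.2 (Int.natAbs_ne_zero.2 (hD s t hst))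
    have h1 : K * (Dm * A) * H ≤ G * (dd u v s t * lv u v h x).natAbs := by
      rw [Int.natAbs_mul]
      calc K * (Dm * A) * H ≤ K * (Dm * A) * (2 * (2 * A * (lv u v h x).natAbs)) :=
            Nat.mul_le_mul_left _ (hHx.trans (Nat.mul_le_mul_left _ hh))
        _ = 4 * A * (K * (Dm * A)) * (1 * (lv u v h x).natAbs) := by ring
        _ ≤ G * ((dd u v s t).natAbs * (lv u v h x).natAbs) := by
            refine Nat.mul_le_mul ?_ (Nat.mul_le_mul_right _ hd1)
            rw [hG]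
            exact Nat.le_add_right _ _
    rw [← Int.natCast_natAbs]
    exact_mod_cast h1
  have key0 : f x 0 ≠ 0 ∧ (f x 0).natAbs ≤ K * (Dm * A) * H :=
    ⟨by rw [hf0]; exact mul_ne_zero hDjl hi0, by rw [hf0]; exact hsz _ _ _⟩
  have key1 : f x 1 ≠ 0 ∧ (f x 1).natAbs ≤ K * (Dm * A) * H :=
    ⟨by rw [hf1]; exact mul_ne_zero hDli hj0, by rw [hf1]; exact hsz _ _ _⟩
  have key2 : f x 2 ≠ 0 ∧ (f x 2).natAbs ≤ K * (Dm * A) * H :=
    ⟨by rw [hf2]; exact mul_ne_zero hDij hl0, by rw [hf2]; exact hsz _ _ _⟩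
  refine ⟨fun h => ?_, ?_, ?_, ?_, ?_, ?_, ?_, ?_⟩
  · fin_cases h
    · exact key0
    · exact key1
    · exact key2
  · rw [hf0]
    exact (tp_rad S S' hSS _ _ hi0 fun p hp hpS => hndd p hp hpS j l hjl).trans hri
  · rw [hf1]
    exact (tp_rad S S' hSS _ _ hj0 fun p hp hpS => hndd p hp hpS l i (Ne.symm hil)).trans hrj
  · rw [hf2]
    have h1 := tp_rad S S' hSS (dd u v i j) _ hl0 fun p hp hpS => hndd p hp hpS i j hij
    have h2 : (radS S' (dd u v i j * lv u v l x) : ℝ) ≤ radS S (lv u v l x) := by exact_mod_cast h1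
    refine h2.trans (hrl.trans ?_)
    exact Real.rpow_le_rpow (Nat.cast_nonneg _) (by exact_mod_cast hHN) hlam.le
  · rw [hf0, hf1, hf2]
    exact lv_rel u v i j l x
  · rcases lv_large u v i j hDij x with h | h
    · refine ⟨0, ?_⟩
      rw [hf0]
      exact hlarge j l i hjl (by rw [hA]; exact h)
    · refine ⟨1, ?_⟩
      rw [hf1]
      exact hlarge l i j (Ne.symm hil) (by rw [hA]; exact h)
  · intro g hg
    have g0 := hg 0
    have g1 := hg 1
    rw [hf0] at g0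
    rw [hf1] at g1
    obtain ⟨P, hP⟩ : ∃ P : ℤ, P = dd u v i j * dd u v j l * dd u v l i := ⟨_, rfl⟩
    have hP0 : P ≠ 0 := by rw [hP]; exact mul_ne_zero (mul_ne_zero hDij hDjl) hDli
    have k1 : g ∣ P * x.1 := by
      have e1 : P * x.1 = dd u v l i * v j * (dd u v j l * lv u v i x) -
          dd u v j l * v i * (dd u v l i * lv u v j x) := by
        rw [hP]
        have := dd_fst u v i j x
        linear_combination (dd u v j l * dd u v l i) * this
      rw [e1]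
      exact dvd_sub (Dvd.dvd.mul_left g0 _) (Dvd.dvd.mul_left g1 _)
    have k2 : g ∣ P * x.2 := by
      have e1 : P * x.2 = dd u v j l * u i * (dd u v l i * lv u v j x) -
          dd u v l i * u j * (dd u v j l * lv u v i x) := by
        rw [hP]
        have := dd_snd u v i j x
        linear_combination (dd u v j l * dd u v l i) * this
      rw [e1]
      exact dvd_sub (Dvd.dvd.mul_left g1 _) (Dvd.dvd.mul_left g0 _)
    have k3 : g ∣ P := by
      obtain ⟨s, t, hst⟩ := hx1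
      have e1 : P = s * (P * x.1) + t * (P * x.2) := by
        linear_combination (-P) * hst
      rw [e1]
      exact dvd_add (Dvd.dvd.mul_left k1 _) (Dvd.dvd.mul_left k2 _)
    have k4 : |g| ≤ |P| := Int.le_of_dvd (abs_pos.2 hP0) ((abs_dvd_abs _ _).2 k3)
    have k5 : P.natAbs ≤ Dm ^ 3 := by
      rw [hP, Int.natAbs_mul, Int.natAbs_mul, hDm]
      calc (dd u v i j).natAbs * (dd u v j l).natAbs * (dd u v l i).natAbs
          ≤ cD u v * cD u v * cD u v :=
            Nat.mul_le_mul (Nat.mul_le_mul (dd_le _ _ _ _) (dd_le _ _ _ _)) (dd_le _ _ _ _)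
        _ = cD u v ^ 3 := by ring
    have k6 : P.natAbs ≤ G := by
      rw [hG]
      omega
    rw [← Int.natCast_natAbs P] at k4
    exact k4.trans (by exact_mod_cast k6)
  · intro p hp hpS
    have hp' : Prime (p : ℤ) := Nat.prime_iff_prime_int.mp hp
    have hcop : ∀ s t : Fin r, s ≠ t → (p : ℤ) ∣ lv u v s x → ¬ (p : ℤ) ∣ lv u v t x := by
      intro s t hst hs
      exact lv_cop S u v hD x hx1 p hp (by rw [← hS']; exact hpS) s t hst hs
    have q0 : (p : ℤ) ∣ f x 0 → (p : ℤ) ∣ lv u v i x := fun h => by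
      rw [hf0] at h
      exact (hp'.dvd_or_dvd h).resolve_left (hndd p hp hpS j l hjl)
    have q1 : (p : ℤ) ∣ f x 1 → (p : ℤ) ∣ lv u v j x := fun h => by
      rw [hf1] at h
      exact (hp'.dvd_or_dvd h).resolve_left (hndd p hp hpS l i (Ne.symm hil))
    have q2 : (p : ℤ) ∣ f x 2 → (p : ℤ) ∣ lv u v l x := fun h => by
      rw [hf2] at h
      exact (hp'.dvd_or_dvd h).resolve_left (hndd p hp hpS i j hij)
    intro s t hst hs ht
    fin_cases s <;> fin_cases t
    · exact hst rfl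
    · exact hcop i j hij (q0 hs) (q1 ht)
    · exact hcop i l hil (q0 hs) (q2 ht)
    · exact hcop j i (Ne.symm hij) (q1 hs) (q0 ht)
    · exact hst rfl
    · exact hcop j l hjl (q1 hs) (q2 ht)
    · exact hcop l i (Ne.symm hil) (q2 hs) (q0 ht)
    · exact hcop l j (Ne.symm hjl) (q2 hs) (q1 ht)
    · exact hst rfl

end Pool.Agent.Helper24.TV
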